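import Pool.Agent.VAC.Quant

/-!
# The cutoff window, and cutoff for sequences
-/

set_option autoImplicit false
set_option linter.unusedSectionVars false

namespace Pool.Agent.VAC

open Finset Matrix Filter Topology
open scoped commutatorElement

section one

variable {V : Type} [Fintype V] [DecidableEq V]

lemma Chain.tmix_mem' {P : Matrix V V ℝ} {p lam : ℝ} (h : Chain P p lam) {ε : ℝ} (hε : 0 < ε)
    (x : V) : tvDist P (tmix P ε) x ≤ ε := by
  have hne : Nonempty V := ⟨x⟩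
  have hn : (0 : ℝ) < Fintype.card V := by exact_mod_cast Fintype.card_pos
  have h1 : {t : ℕ | ∀ x : V, tvDist P t x ≤ ε}.Nonempty := by
    have h0 : (0 : ℝ) < ε ^ 2 / Fintype.card V := by positivity
    obtain ⟨t, ht⟩ := exists_pow_lt_of_lt_one h0 (show 1 - lam < 1 by linarith [h.lam0])
    refine ⟨t, fun x => ?_⟩
    rw [tvDist_le_iff]
    have h2 := h.l2_part (fun y => if y = x then (1 : ℝ) else 0) t (b := Fintype.card V) (ε := ε)
      (by
        rw [div_self hn.ne']
        simp) hε.le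
      (by
        rw [lt_div_iff₀ hn] at ht
        exact ht.le)
    have h3 : ∑ y, (if y = x then (1 : ℝ) else 0) = 1 := by simp
    rw [h3] at h2
    calc ∑ y, |(P ^ t) x y - 1 / (Fintype.card V : ℝ)|
        = ∑ y, |(P ^ t *ᵥ fun y => if y = x then (1 : ℝ) else 0) y - 1 / Fintype.card V| := by
          apply Finset.sum_congr rfl
          intro y _
          have h4 : (P ^ t *ᵥ fun y => if y = x then (1 : ℝ) else 0) y = (P ^ t) x y := by
            simp only [Matrix.mulVec, dotProduct]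
            rw [h.pow_sym t x y]
            simp
          rw [h4]
      _ ≤ ε := h2
      _ ≤ _ := by linarith
  exact Nat.sInf_mem h1 x

lemma Chain.tmix_mono {P : Matrix V V ℝ} {p lam : ℝ} (h : Chain P p lam) {ε ε' : ℝ} (hε : 0 < ε)
    (hεε : ε ≤ ε') : tmix P ε' ≤ tmix P ε :=
  Nat.sInf_le fun x => (h.tmix_mem' hε x).trans hεε

lemma degree_pos {G : SimpleGraph V} [DecidableRel G.Adj] (hG : G.Connected)
    (hn : 2 ≤ Fintype.card V) {d : ℕ} (hreg : G.IsRegularOfDegree d) : 1 ≤ d := by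
  have h1 : Nontrivial V := Fintype.one_lt_card_iff_nontrivial.1 (by omega)
  obtain ⟨x⟩ := hG.nonempty
  have h2 := hG.preconnected.degree_pos_of_nontrivial x
  rw [hreg x] at h2
  exact h2

/-- The chain of a connected regular graph of degree at most `D`. -/
lemma exists_chain {G : SimpleGraph V} [DecidableRel G.Adj] (hG : G.Connected)
    (hn : 2 ≤ Fintype.card V) {d D : ℕ} (hreg : G.IsRegularOfDegree d) (hd : d ≤ D) {lam : ℝ}
    (hl : 0 < lam) (hgap : HasGap (lazyP G) lam) :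
    1 ≤ D ∧ Chain (lazyP G) (1 / (2 * D)) (min lam 1) := by
  have hd1 := degree_pos hG hn hreg
  refine ⟨hd1.trans hd, ?_⟩
  exact chain_of_graph G hd1 hreg hd (lt_min hl one_pos) (min_le_right _ _)
    (hgap.mono (min_le_left _ _))

/-- Quantitative bound for one graph. -/
theorem window_one {G : SimpleGraph V} [DecidableRel G.Adj] (A : Subgroup (G ≃g G))
    (hG : G.Connected) (hn : 2 ≤ Fintype.card V) {d D : ℕ} (hreg : G.IsRegularOfDegree d)
    (hd : d ≤ D) {lam : ℝ} (hl : 0 < lam) (hgap : HasGap (lazyP G) lam) {M : ℝ} (hM : 1 ≤ M)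
    (horb : ∀ x : V, (Fintype.card V : ℝ) ≤ M * (MulAction.orbit A x).ncard) {ε : ℝ}
    (hε0 : 0 < ε) (hε : ε ≤ 1 / 2) :
    (tmix (lazyP G) ε : ℝ) ≤ tmix (lazyP G) (1 - ε) +
      constC (1 / (2 * D)) (min lam 1) ε *
        (Real.sqrt (Real.log (Fintype.card V) * (1 + Real.log M)) +
          Real.log (Nat.card (commutator A))) := by
  classical
  obtain ⟨hD, h⟩ := exists_chain hG hn hreg hd hl hgap
  have hn' : (2 : ℝ) ≤ Fintype.card V := by exact_mod_cast hn
  have hfin : Finite A := inferInstance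
  have hfA : Fintype A := Fintype.ofFinite A
  have hfK : Fintype (commutator A) := Fintype.ofFinite _
  have hp : (1 : ℝ) / (2 * D) ≤ 1 / 2 := by
    have h1 : (1 : ℝ) ≤ D := by exact_mod_cast hD
    apply one_div_le_one_div_of_le (by norm_num)
    linarith
  have hinv : ∀ (a : A) (x y : V), lazyP G (a • x) (a • y) = lazyP G x y :=
    lazyP_inv G hreg A
  have hK : ∀ a b : A, a * b * a⁻¹ * b⁻¹ ∈ commutator A := by
    intro a b
    have h1 : ⁅a, b⁆ ∈ commutator A :=
      Subgroup.commutator_mem_commutator (Subgroup.mem_top a) (Subgroup.mem_top b)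
    rwa [commutatorElement_def] at h1
  set M' : ℝ := min M (Fintype.card V) with hM'
  have hM'1 : 1 ≤ M' := le_min hM (by linarith)
  have horb' : ∀ y : V, (Fintype.card V : ℝ) ≤ M' * (MulAction.orbit A y).ncard := by
    intro y
    rcases min_cases M (Fintype.card V : ℝ) with hc | hc
    · rw [hM', hc.1]
      exact horb y
    · rw [hM', hc.1]
      have h1 : 1 ≤ (MulAction.orbit A y).ncard := by
        rw [Nat.one_le_iff_ne_zero, Ne, Set.ncard_eq_zero (Set.toFinite _)]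
        exact (MulAction.nonempty_orbit y).ne_empty
      have h2 : (1 : ℝ) ≤ (MulAction.orbit A y).ncard := by exact_mod_cast h1
      nlinarith
  have key := h.quant hinv (commutator A) hK hp hM'1 (min_le_right _ _) horb' hn hε0 hε
  have hcard : (Nat.card (commutator A) : ℝ) = Fintype.card (commutator A) := by
    rw [Nat.card_eq_fintype_card]
  rw [hcard]
  refine key.trans ?_
  have hlogn : 0 ≤ Real.log (Fintype.card V) := Real.log_nonneg (by linarith)
  have hlogM : Real.log M' ≤ Real.log M := Real.log_le_log (by linarith) (min_le_left _ _)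
  have hC : 0 ≤ constC (1 / (2 * D)) (min lam 1) ε := by
    unfold constC constB
    have hD' : (1 : ℝ) ≤ D := by exact_mod_cast hD
    have h1 : 0 ≤ Real.log (2 / (1 / (2 * (D : ℝ)))) := by
      apply Real.log_nonneg
      rw [le_div_iff₀ (by positivity)]
      have := hp
      linarith
    have h2 : 0 ≤ Real.log (1 / ε) := by
      apply Real.log_nonneg
      rw [le_div_iff₀ hε0]
      linarith
    have h3 : 0 < min lam 1 := h.lam0
    positivity
  gcongr

lemma tmix_lower {G : SimpleGraph V} [DecidableRel G.Adj]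
    (hG : G.Connected) (hn : 2 ≤ Fintype.card V) {d D : ℕ} (hreg : G.IsRegularOfDegree d)
    (hd : d ≤ D) {lam : ℝ} (hl : 0 < lam) (hgap : HasGap (lazyP G) lam) {ε : ℝ}
    (hε0 : 0 < ε) (hε : ε ≤ 1 / 2) :
    Real.log (Fintype.card V) + Real.log ε ≤
      Real.log (2 * D) * tmix (lazyP G) (1 - ε) := by
  obtain ⟨hD, h⟩ := exists_chain hG hn hreg hd hl hgap
  obtain ⟨x⟩ := hG.nonempty
  have h1 := h.tmix_ge hε0 hε x
  have hn0 : (0 : ℝ) < Fintype.card V := by exact_mod_cast (by omega : 0 < Fintype.card V)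
  rw [Real.log_mul hε0.ne' hn0.ne', one_div_one_div] at h1
  linarith

end one

/-- Cutoff for `ε ≤ 1/2`. -/
theorem cutoff_half (V : ℕ → Type) [∀ n, Fintype (V n)] [∀ n, DecidableEq (V n)]
    (G : ∀ n, SimpleGraph (V n)) [∀ n, DecidableRel (G n).Adj]
    (A : ∀ n, Subgroup (G n ≃g G n))
    (hcard : Tendsto (fun n => Fintype.card (V n)) atTop atTop)
    (hconn : ∀ n, (G n).Connected)
    (hdeg : ∃ D : ℕ, ∀ n, ∃ d ≤ D, (G n).IsRegularOfDegree d)
    (hgap : ∃ lam : ℝ, 0 < lam ∧ ∀ n, HasGap (lazyP (G n)) lam)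
    (hA : ∀ δ : ℝ, 0 < δ → ∀ᶠ n in atTop,
      (∀ x : V n, (Fintype.card (V n) : ℝ) ^ (1 - δ) ≤ (MulAction.orbit (A n) x).ncard) ∧
      (Nat.card (commutator (A n)) : ℝ) ≤ (Fintype.card (V n) : ℝ) ^ δ)
    (ε : ℝ) (hε0 : 0 < ε) (hε : ε ≤ 1 / 2) :
    Tendsto (fun n => (tmix (lazyP (G n)) ε : ℝ) / (tmix (lazyP (G n)) (1 - ε) : ℝ))
      atTop (𝓝 1) := by
  obtain ⟨D, hdeg⟩ := hdeg
  obtain ⟨lam, hl, hgap⟩ := hgap
  set C := constC (1 / (2 * D)) (min lam 1) ε with hC
  have hcardR : Tendsto (fun n => Real.log (Fintype.card (V n) : ℝ)) atTop atTop :=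
    Real.tendsto_log_atTop.comp (tendsto_natCast_atTop_atTop.comp hcard)
  set c := Real.log (2 * D) with hc
  rw [Metric.tendsto_atTop]
  intro η hη
  -- choice of `δ`
  have hcont : Tendsto (fun δ : ℝ => |C| * (Real.sqrt (2 * δ) + δ) * (2 * |c|)) (𝓝[>] 0)
      (𝓝 0) := by
    have h1 : Continuous fun δ : ℝ => |C| * (Real.sqrt (2 * δ) + δ) * (2 * |c|) := by fun_prop
    have h2 := h1.tendsto 0
    simp only [mul_zero, Real.sqrt_zero, add_zero, zero_mul] at h2
    exact h2.mono_left nhdsWithin_le_nhds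
  obtain ⟨δ, hδη, hδ0⟩ : ∃ δ : ℝ, |C| * (Real.sqrt (2 * δ) + δ) * (2 * |c|) < η ∧ 0 < δ := by
    have h1 := (hcont.eventually (gt_mem_nhds hη)).and self_mem_nhdsWithin
    obtain ⟨δ, h2, h3⟩ := h1.exists
    exact ⟨δ, h2, h3⟩
  have hev := (hA δ hδ0).and ((hcard.eventually_ge_atTop 2).and
    ((hcardR.eventually_ge_atTop (1 / δ)).and (hcardR.eventually_ge_atTop (1 - 2 * Real.log ε))))
  obtain ⟨n₀, hn₀⟩ := eventually_atTop.1 hev
  refine ⟨n₀, fun n hn => ?_⟩
  obtain ⟨⟨horb, hcomm⟩, hn2, hN1, hN2⟩ := hn₀ n hn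
  obtain ⟨d, hdD, hreg⟩ := hdeg n
  set N := Real.log (Fintype.card (V n) : ℝ) with hN
  have hn2' : (2 : ℝ) ≤ Fintype.card (V n) := by exact_mod_cast hn2
  have hv0 : (0 : ℝ) < Fintype.card (V n) := by linarith
  have hlogε : Real.log ε ≤ 0 := Real.log_nonpos hε0.le (by linarith)
  have hN0 : 1 ≤ N := by linarith
  have hδN : 1 ≤ δ * N := by
    rw [div_le_iff₀ hδ0] at hN1
    linarith
  obtain ⟨hD, h⟩ := exists_chain (hconn n) hn2 hreg hdD hl (hgap n)
  have hM1 : 1 ≤ (Fintype.card (V n) : ℝ) ^ δ := Real.one_le_rpow (by linarith) hδ0.le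
  have horb' : ∀ x : V n, (Fintype.card (V n) : ℝ) ≤
      (Fintype.card (V n) : ℝ) ^ δ * (MulAction.orbit (A n) x).ncard := by
    intro x
    have h1 := mul_le_mul_of_nonneg_left (horb x) (by linarith :
      0 ≤ (Fintype.card (V n) : ℝ) ^ δ)
    rw [← Real.rpow_add hv0] at h1
    have h2 : δ + (1 - δ) = 1 := by ring
    rwa [h2, Real.rpow_one] at h1
  have hwin := window_one (A n) (hconn n) hn2 hreg hdD hl (hgap n) hM1 horb' hε0 hε
  rw [← hC, Real.log_rpow hv0, ← hN] at hwin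
  have hκ : Real.log (Nat.card (commutator (A n))) ≤ δ * N := by
    have h1 : (0 : ℝ) < Nat.card (commutator (A n)) := by
      exact_mod_cast Nat.card_pos
    have h2 := Real.log_le_log h1 hcomm
    rwa [Real.log_rpow hv0] at h2
  have hκ0 : 0 ≤ Real.log (Nat.card (commutator (A n))) := by
    apply Real.log_nonneg
    have h1 : 1 ≤ Nat.card (commutator (A n)) := Nat.card_pos
    exact_mod_cast h1
  have hsq : Real.sqrt (N * (1 + δ * N)) ≤ Real.sqrt (2 * δ) * N := by
    have h1 : N * (1 + δ * N) ≤ (2 * δ) * N ^ 2 := by nlinarith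
    calc Real.sqrt (N * (1 + δ * N)) ≤ Real.sqrt ((2 * δ) * N ^ 2) := Real.sqrt_le_sqrt h1
      _ = Real.sqrt (2 * δ) * N := by
          rw [Real.sqrt_mul (by positivity), Real.sqrt_sq (by linarith)]
  set T := (tmix (lazyP (G n)) (1 - ε) : ℝ) with hT
  set T' := (tmix (lazyP (G n)) ε : ℝ) with hT'
  have hdiff : T' - T ≤ |C| * (Real.sqrt (2 * δ) + δ) * N := by
    have h1 : C * (Real.sqrt (N * (1 + δ * N)) + Real.log (Nat.card (commutator (A n)))) ≤
        |C| * (Real.sqrt (2 * δ) * N + δ * N) := by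
      calc C * (Real.sqrt (N * (1 + δ * N)) + Real.log (Nat.card (commutator (A n))))
          ≤ |C| * (Real.sqrt (N * (1 + δ * N)) + Real.log (Nat.card (commutator (A n)))) :=
            mul_le_mul_of_nonneg_right (le_abs_self C) (add_nonneg (Real.sqrt_nonneg _) hκ0)
        _ ≤ _ := mul_le_mul_of_nonneg_left (add_le_add hsq hκ) (abs_nonneg C)
    linarith
  have hlow := tmix_lower (hconn n) hn2 hreg hdD hl (hgap n) hε0 hε
  rw [← hN, ← hc, ← hT] at hlow
  have hc0 : 0 ≤ c := by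
    have h1 : (1 : ℝ) ≤ D := by exact_mod_cast hD
    exact Real.log_nonneg (by linarith)
  have hT0 : 0 ≤ T := Nat.cast_nonneg _
  have hNT : N ≤ 2 * |c| * T := by
    rw [abs_of_nonneg hc0]
    linarith
  have hTpos : 0 < T := by
    by_contra hcon
    have h1 : T = 0 := le_antisymm (not_lt.1 hcon) hT0
    rw [h1, mul_zero] at hNT
    linarith
  have hmono : T ≤ T' := by
    have h1 : tmix (lazyP (G n)) (1 - ε) ≤ tmix (lazyP (G n)) ε :=
      h.tmix_mono hε0 (by linarith)
    rw [hT, hT']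
    exact_mod_cast h1
  rw [Real.dist_eq]
  have h1 : T' / T - 1 = (T' - T) / T := by field_simp
  rw [h1, abs_of_nonneg (div_nonneg (by linarith) hT0), div_lt_iff₀ hTpos]
  have h2 : |C| * (Real.sqrt (2 * δ) + δ) * N ≤
      |C| * (Real.sqrt (2 * δ) + δ) * (2 * |c| * T) :=
    mul_le_mul_of_nonneg_left hNT (by positivity)
  have h3 : |C| * (Real.sqrt (2 * δ) + δ) * (2 * |c| * T) =
      |C| * (Real.sqrt (2 * δ) + δ) * (2 * |c|) * T := by ring
  have h4 : |C| * (Real.sqrt (2 * δ) + δ) * (2 * |c|) * T < η * T :=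
    mul_lt_mul_of_pos_right hδη hTpos
  linarith

/-- Cutoff. -/
theorem cutoff (V : ℕ → Type) [∀ n, Fintype (V n)] [∀ n, DecidableEq (V n)]
    (G : ∀ n, SimpleGraph (V n)) [∀ n, DecidableRel (G n).Adj]
    (A : ∀ n, Subgroup (G n ≃g G n))
    (hcard : Tendsto (fun n => Fintype.card (V n)) atTop atTop)
    (hconn : ∀ n, (G n).Connected)
    (hdeg : ∃ D : ℕ, ∀ n, ∃ d ≤ D, (G n).IsRegularOfDegree d)
    (hgap : ∃ lam : ℝ, 0 < lam ∧ ∀ n, HasGap (lazyP (G n)) lam)
    (hA : ∀ δ : ℝ, 0 < δ → ∀ᶠ n in atTop,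
      (∀ x : V n, (Fintype.card (V n) : ℝ) ^ (1 - δ) ≤ (MulAction.orbit (A n) x).ncard) ∧
      (Nat.card (commutator (A n)) : ℝ) ≤ (Fintype.card (V n) : ℝ) ^ δ)
    (ε : ℝ) (hε0 : 0 < ε) (hε1 : ε < 1) :
    Tendsto (fun n => (tmix (lazyP (G n)) ε : ℝ) / (tmix (lazyP (G n)) (1 - ε) : ℝ))
      atTop (𝓝 1) := by
  rcases le_or_gt ε (1 / 2) with hε | hε
  · exact cutoff_half V G A hcard hconn hdeg hgap hA ε hε0 hε
  · have h1 := cutoff_half V G A hcard hconn hdeg hgap hA (1 - ε) (by linarith) (by linarith)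
    have h2 := h1.inv₀ one_ne_zero
    rw [inv_one] at h2
    refine h2.congr fun n => ?_
    rw [inv_div]
    have h3 : 1 - (1 - ε) = ε := by ring
    rw [h3]

end Pool.Agent.VAC
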