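import Mathlib

/-!
# Definitions: lazy random walk on a finite graph, mixing times, spectral gap
-/

set_option autoImplicit false

namespace Pool.Agent.VAC

variable {V : Type} [Fintype V] [DecidableEq V]

/-- The transition matrix `(I + A/d)/2` of the lazy simple random walk on `G`. -/
noncomputable def lazyP (G : SimpleGraph V) [DecidableRel G.Adj] : Matrix V V ℝ :=
  Matrix.of fun a b : V =>
    (if a = b then (1 / 2 : ℝ) else 0) + (if G.Adj a b then 1 / (2 * (G.degree a : ℝ)) else 0)

/-- Total variation distance between the law after `t` steps from `x` and the uniform law. -/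
noncomputable def tvDist (P : Matrix V V ℝ) (t : ℕ) (x : V) : ℝ :=
  (1 / 2 : ℝ) * ∑ y : V, |(P ^ t) x y - 1 / (Fintype.card V : ℝ)|

/-- The total variation mixing time `T_mix(ε)`. -/
noncomputable def tmix (P : Matrix V V ℝ) (ε : ℝ) : ℕ :=
  sInf {t : ℕ | ∀ x : V, tvDist P t x ≤ ε}

/-- The spectral gap of `P` is at least `lam`: `lam ‖f‖² ≤ ⟨f, (I - P) f⟩` for all `f` of mean
zero. -/
def HasGap (P : Matrix V V ℝ) (lam : ℝ) : Prop :=
  ∀ f : V → ℝ, ∑ x, f x = 0 → lam * ∑ x, f x ^ 2 ≤ ∑ x, f x * (f x - (P.mulVec f) x)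

end Pool.Agent.VAC
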