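import Mathlib

/-!
# Cutoff for expanders with an almost abelian group of automorphisms with almost full orbits

Basic facts on symmetric stochastic matrices with a spectral gap (MP_64152e_pr).
-/

set_option autoImplicit false
set_option linter.unusedSectionVars false

namespace Pool.Agent.VAC

open Finset Matrix

variable {V : Type*} [Fintype V] [DecidableEq V]

/-- Symmetric stochastic matrices with positive diagonal, all of whose nonzero entries are at
least `p`, and such that `‖P f‖² ≤ (1 - lam) ‖f‖²` for `f` of mean zero. -/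
structure Chain (P : Matrix V V ℝ) (p lam : ℝ) : Prop where
  nn : ∀ x y, 0 ≤ P x y
  row : ∀ x, ∑ y, P x y = 1
  sym : ∀ x y, P x y = P y x
  low : ∀ x y, P x y ≠ 0 → p ≤ P x y
  diag : ∀ x, P x x ≠ 0
  p0 : 0 < p
  p1 : p ≤ 1
  lam0 : 0 < lam
  lam1 : lam ≤ 1
  gap : ∀ f : V → ℝ, ∑ x, f x = 0 → ∑ x, (P *ᵥ f) x ^ 2 ≤ (1 - lam) * ∑ x, f x ^ 2

section general

/-- Two averages of functions which are close on the supports are close. -/
lemma avg_diff {ι κ : Type*} [Fintype ι] [Fintype κ] (w : ι → ℝ) (w' : κ → ℝ) (u : ι → ℝ)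
    (v : κ → ℝ) (C : ℝ) (hw : ∀ i, 0 ≤ w i) (hw' : ∀ j, 0 ≤ w' j) (hs : ∑ i, w i = 1)
    (hs' : ∑ j, w' j = 1) (h : ∀ i j, w i ≠ 0 → w' j ≠ 0 → |u i - v j| ≤ C) :
    |∑ i, w i * u i - ∑ j, w' j * v j| ≤ C := by
  have h1 : ∑ i, w i * u i = ∑ i, ∑ j, w i * w' j * u i := by
    apply Finset.sum_congr rfl
    intro i _
    rw [← Finset.sum_mul, ← Finset.mul_sum, hs', mul_one]
  have h2 : ∑ j, w' j * v j = ∑ i, ∑ j, w i * w' j * v j := by
    rw [Finset.sum_comm]
    apply Finset.sum_congr rfl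
    intro j _
    rw [← Finset.sum_mul, ← Finset.sum_mul, hs, one_mul]
  have h3 : (∑ i, w i * u i - ∑ j, w' j * v j) = ∑ i, ∑ j, w i * w' j * (u i - v j) := by
    rw [h1, h2, ← Finset.sum_sub_distrib]
    apply Finset.sum_congr rfl
    intro i _
    rw [← Finset.sum_sub_distrib]
    apply Finset.sum_congr rfl
    intro j _
    ring
  rw [h3]
  calc |∑ i, ∑ j, w i * w' j * (u i - v j)| ≤ ∑ i, ∑ j, |w i * w' j * (u i - v j)| :=
        (Finset.abs_sum_le_sum_abs _ _).trans
          (Finset.sum_le_sum fun i _ => Finset.abs_sum_le_sum_abs _ _)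
    _ ≤ ∑ i, ∑ j, w i * w' j * C := by
        apply Finset.sum_le_sum
        intro i _
        apply Finset.sum_le_sum
        intro j _
        rw [abs_mul, abs_of_nonneg (mul_nonneg (hw i) (hw' j))]
        rcases eq_or_ne (w i) 0 with h0 | h0
        · simp [h0]
        rcases eq_or_ne (w' j) 0 with h0' | h0'
        · simp [h0']
        exact mul_le_mul_of_nonneg_left (h i j h0 h0') (mul_nonneg (hw i) (hw' j))
    _ = C := by
        have h4 : ∀ i, ∑ j, w i * w' j * C = w i * C := by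
          intro i
          rw [← Finset.sum_mul, ← Finset.mul_sum, hs', mul_one]
        rw [Finset.sum_congr rfl fun i _ => h4 i, ← Finset.sum_mul, hs, one_mul]

/-- Variance of a function which oscillates by at most `C` on the support. -/
lemma var_le (w u : V → ℝ) (C : ℝ) (hw : ∀ i, 0 ≤ w i) (hs : ∑ i, w i = 1)
    (h : ∀ i j, w i ≠ 0 → w j ≠ 0 → |u i - u j| ≤ C) :
    ∑ i, w i * u i ^ 2 - (∑ i, w i * u i) ^ 2 ≤ C ^ 2 := by
  set m := ∑ i, w i * u i with hm
  have h1 : ∑ i, w i * u i ^ 2 - m ^ 2 = ∑ i, w i * (u i - m) ^ 2 := by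
    have h2 : ∀ i, w i * (u i - m) ^ 2 = w i * u i ^ 2 - 2 * m * (w i * u i) + m ^ 2 * w i := by
      intro i; ring
    rw [Finset.sum_congr rfl fun i _ => h2 i, Finset.sum_add_distrib, Finset.sum_sub_distrib,
      ← Finset.mul_sum, ← Finset.mul_sum, hs, ← hm]
    ring
  rw [h1]
  calc ∑ i, w i * (u i - m) ^ 2 ≤ ∑ i, w i * C ^ 2 := by
        apply Finset.sum_le_sum
        intro i _
        rcases eq_or_ne (w i) 0 with h0 | h0
        · simp [h0]
        apply mul_le_mul_of_nonneg_left _ (hw i)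
        have h3 : |u i - m| ≤ C := by
          have h4 := avg_diff (fun _ : Unit => (1 : ℝ)) w (fun _ => u i) u C (by simp) hw
            (by simp) hs (fun _ j _ hj => h i j h0 hj)
          simpa using h4
        rw [← sq_abs]
        exact pow_le_pow_left₀ (abs_nonneg _) h3 2
    _ = C ^ 2 := by rw [← Finset.sum_mul, hs, one_mul]

end general

namespace Chain

variable {P : Matrix V V ℝ} {p lam : ℝ} (h : Chain P p lam)

include h

lemma pow_nn (t : ℕ) (x y : V) : 0 ≤ (P ^ t) x y := by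
  induction t generalizing x y with
  | zero =>
    rw [pow_zero, Matrix.one_apply]
    split_ifs <;> norm_num
  | succ t ih =>
    rw [pow_succ, Matrix.mul_apply]
    exact Finset.sum_nonneg fun z _ => mul_nonneg (ih x z) (h.nn z y)

lemma pow_row (t : ℕ) (x : V) : ∑ y, (P ^ t) x y = 1 := by
  induction t with
  | zero => simp [Matrix.one_apply]
  | succ t ih =>
    simp_rw [pow_succ, Matrix.mul_apply]
    rw [Finset.sum_comm]
    have h1 : ∀ z, ∑ y, (P ^ t) x z * P z y = (P ^ t) x z := by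
      intro z
      rw [← Finset.mul_sum, h.row, mul_one]
    rw [Finset.sum_congr rfl fun z _ => h1 z, ih]

lemma transpose_eq : P.transpose = P := by
  ext x y
  exact h.sym y x

lemma pow_sym (t : ℕ) (x y : V) : (P ^ t) x y = (P ^ t) y x := by
  have h1 : (P ^ t).transpose = P ^ t := by
    rw [Matrix.transpose_pow, h.transpose_eq]
  calc (P ^ t) x y = (P ^ t).transpose y x := rfl
    _ = (P ^ t) y x := by rw [h1]

lemma pow_col (t : ℕ) (y : V) : ∑ x, (P ^ t) x y = 1 := by
  rw [← h.pow_row t y]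
  exact Finset.sum_congr rfl fun x _ => h.pow_sym t x y

lemma pow_le_one (t : ℕ) (x y : V) : (P ^ t) x y ≤ 1 := by
  rw [← h.pow_row t x]
  exact Finset.single_le_sum (f := fun y => (P ^ t) x y) (fun z _ => h.pow_nn t x z)
    (Finset.mem_univ y)

lemma mul_le_pow (s t : ℕ) (x y z : V) : (P ^ s) x y * (P ^ t) y z ≤ (P ^ (s + t)) x z := by
  rw [pow_add, Matrix.mul_apply]
  exact Finset.single_le_sum (f := fun y => (P ^ s) x y * (P ^ t) y z)
    (fun w _ => mul_nonneg (h.pow_nn s x w) (h.pow_nn t w z)) (Finset.mem_univ y)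

lemma pow_low (t : ℕ) (x y : V) (hxy : (P ^ t) x y ≠ 0) : p ^ t ≤ (P ^ t) x y := by
  induction t generalizing x y with
  | zero =>
    simp only [pow_zero, Matrix.one_apply] at hxy ⊢
    split_ifs at hxy ⊢ <;> simp_all
  | succ t ih =>
    have h1 : ∃ z, (P ^ t) x z * P z y ≠ 0 := by
      by_contra hc
      push Not at hc
      apply hxy
      rw [pow_succ, Matrix.mul_apply]
      exact Finset.sum_eq_zero fun z _ => hc z
    obtain ⟨z, hz⟩ := h1
    have h2 := ih x z (left_ne_zero_of_mul hz)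
    have h3 := h.low z y (right_ne_zero_of_mul hz)
    have h4 := h.mul_le_pow t 1 x z y
    rw [pow_one] at h4
    calc p ^ (t + 1) = p ^ t * p := pow_succ p t
      _ ≤ (P ^ t) x z * P z y := mul_le_mul h2 h3 h.p0.le (h.pow_nn t x z)
      _ ≤ _ := h4

lemma pos_of_ne (t : ℕ) (x y : V) (hxy : (P ^ t) x y ≠ 0) : 0 < (P ^ t) x y :=
  lt_of_le_of_ne (h.pow_nn t x y) (Ne.symm hxy)

lemma reach_trans {s t : ℕ} {x y z : V} (h1 : (P ^ s) x y ≠ 0) (h2 : (P ^ t) y z ≠ 0) :
    (P ^ (s + t)) x z ≠ 0 := by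
  have h3 := h.mul_le_pow s t x y z
  have h4 := mul_pos (h.pos_of_ne s x y h1) (h.pos_of_ne t y z h2)
  exact (lt_of_lt_of_le h4 h3).ne'

lemma reach_symm {s : ℕ} {x y : V} (h1 : (P ^ s) x y ≠ 0) : (P ^ s) y x ≠ 0 := by
  rw [← h.pow_sym]
  exact h1

lemma mulVec_sum (f : V → ℝ) : ∑ x, (P *ᵥ f) x = ∑ x, f x := by
  simp only [Matrix.mulVec, dotProduct]
  rw [Finset.sum_comm]
  apply Finset.sum_congr rfl
  intro y _
  rw [← Finset.sum_mul]
  have : ∑ x, P x y = 1 := by
    rw [← h.row y]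
    exact Finset.sum_congr rfl fun x _ => h.sym x y
  rw [this, one_mul]

lemma pow_mulVec_sum (t : ℕ) (f : V → ℝ) : ∑ x, (P ^ t *ᵥ f) x = ∑ x, f x := by
  induction t with
  | zero => simp
  | succ t ih =>
    rw [pow_succ', ← Matrix.mulVec_mulVec, h.mulVec_sum, ih]

lemma gap_pow (t : ℕ) (f : V → ℝ) (hf : ∑ x, f x = 0) :
    ∑ x, (P ^ t *ᵥ f) x ^ 2 ≤ (1 - lam) ^ t * ∑ x, f x ^ 2 := by
  induction t with
  | zero => simp
  | succ t ih =>
    rw [pow_succ', ← Matrix.mulVec_mulVec]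
    have h1 := h.gap (P ^ t *ᵥ f) (by rw [h.pow_mulVec_sum, hf])
    have h2 : 0 ≤ 1 - lam := by linarith [h.lam1]
    calc _ ≤ (1 - lam) * ∑ x, (P ^ t *ᵥ f) x ^ 2 := h1
      _ ≤ (1 - lam) * ((1 - lam) ^ t * ∑ x, f x ^ 2) := mul_le_mul_of_nonneg_left ih h2
      _ = _ := by ring

lemma pow_mulVec_const (t : ℕ) (c : ℝ) (x : V) : (P ^ t *ᵥ fun _ => c) x = c := by
  simp only [Matrix.mulVec, dotProduct]
  rw [← Finset.sum_mul, h.pow_row, one_mul]

lemma pow_mulVec_sub_const (t : ℕ) (f : V → ℝ) (c : ℝ) (x : V) :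
    (P ^ t *ᵥ fun y => f y - c) x = (P ^ t *ᵥ f) x - c := by
  have h1 : (fun y => f y - c) = f - fun _ => c := rfl
  rw [h1, Matrix.mulVec_sub, Pi.sub_apply, h.pow_mulVec_const]

end Chain

/-- sum of squares of the centred function -/
lemma centred_sq (f : V → ℝ) [Nonempty V] :
    ∑ x, (f x - (∑ y, f y) / Fintype.card V) ^ 2 ≤ ∑ x, f x ^ 2 := by
  have hn : (0 : ℝ) < Fintype.card V := by exact_mod_cast Fintype.card_pos
  set s := ∑ y, f y with hs
  have h1 : ∀ x, (f x - s / Fintype.card V) ^ 2 =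
      f x ^ 2 - 2 * (s / Fintype.card V) * f x + (s / Fintype.card V) ^ 2 := by
    intro x; ring
  rw [Finset.sum_congr rfl fun x _ => h1 x, Finset.sum_add_distrib, Finset.sum_sub_distrib,
    ← Finset.mul_sum, ← hs, Finset.sum_const, Finset.card_univ, nsmul_eq_mul]
  have h2 : (Fintype.card V : ℝ) * (s / Fintype.card V) ^ 2 = s ^ 2 / Fintype.card V := by
    field_simp
  have h3 : 2 * (s / Fintype.card V) * s = 2 * (s ^ 2 / Fintype.card V) := by ring
  rw [h2, h3]
  have h4 : 0 ≤ s ^ 2 / Fintype.card V := by positivity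
  linarith

lemma centred_sum (f : V → ℝ) [Nonempty V] :
    ∑ x, (f x - (∑ y, f y) / Fintype.card V) = 0 := by
  have hn : (0 : ℝ) < Fintype.card V := by exact_mod_cast Fintype.card_pos
  rw [Finset.sum_sub_distrib, Finset.sum_const, Finset.card_univ, nsmul_eq_mul]
  field_simp
  ring

end Pool.Agent.VAC
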