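import Pool.Agent.VAC.Orbit

/-!
# The gradient bound

If `Φ` is Lipschitz, and changes little under those elements of the almost abelian group `A`
which move the base point `o` little, then all the functions `P ^ k Φ` are Lipschitz at the scale
`L`, where `L` is the time which is needed to mix over the orbits of `A`.
-/

set_option autoImplicit false
set_option linter.unusedSectionVars false

namespace Pool.Agent.VAC

open Finset Matrix

variable {V : Type*} [Fintype V] [DecidableEq V]
variable {A : Type*} [Group A] [MulAction A V]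

lemma avg_diff_diag {ι : Type*} [Fintype ι] (w u v : ι → ℝ) (C : ℝ) (hw : ∀ i, 0 ≤ w i)
    (hs : ∑ i, w i = 1) (h : ∀ i, w i ≠ 0 → |u i - v i| ≤ C) :
    |∑ i, w i * u i - ∑ i, w i * v i| ≤ C := by
  rw [← Finset.sum_sub_distrib]
  calc |∑ i, (w i * u i - w i * v i)| ≤ ∑ i, |w i * u i - w i * v i| :=
        Finset.abs_sum_le_sum_abs _ _
    _ ≤ ∑ i, w i * C := by
        apply Finset.sum_le_sum
        intro i _
        rcases eq_or_ne (w i) 0 with h0 | h0
        · simp [h0]
        rw [← mul_sub, abs_mul, abs_of_nonneg (hw i)]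
        exact mul_le_mul_of_nonneg_left (h i h0) (hw i)
    _ = C := by rw [← Finset.sum_mul, hs, one_mul]

/-- average over the orbit with weights `q` -/
noncomputable def orbAvg [Fintype A] (q Ψ : V → ℝ) (z : V) : ℝ :=
  ∑ a : A, q (a • z) / (∑ b : A, q (b • z)) * Ψ (a • z)

lemma orbSum_smul [Fintype A] (f : V → ℝ) (b : A) (z : V) :
    ∑ a : A, f (a • b • z) = ∑ a : A, f (a • z) :=
  Fintype.sum_equiv (Equiv.mulRight b) _ _ fun a => by
    simp only [Equiv.coe_mulRight, mul_smul]

lemma orbAvg_smul [Fintype A] (q Ψ : V → ℝ) (b : A) (z : V) :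
    orbAvg (A := A) q Ψ (b • z) = orbAvg (A := A) q Ψ z := by
  unfold orbAvg
  rw [orbSum_smul q b z]
  exact orbSum_smul (fun x => q x / (∑ b : A, q (b • z)) * Ψ x) b z

lemma orbAvg_sum [Fintype A] (q Ψ : V → ℝ) (hQ : ∀ z, ∑ b : A, q (b • z) ≠ 0) :
    ∑ z, q z * orbAvg (A := A) q Ψ z = ∑ z, q z * Ψ z := by
  unfold orbAvg
  simp_rw [Finset.mul_sum]
  rw [Finset.sum_comm]
  have h1 : ∀ a : A, ∑ z, q z * (q (a • z) / (∑ b : A, q (b • z)) * Ψ (a • z)) =
      ∑ z, q (a⁻¹ • z) * (q z / (∑ b : A, q (b • z)) * Ψ z) := by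
    intro a
    rw [← sum_smul a (fun z => q (a⁻¹ • z) * (q z / (∑ b : A, q (b • z)) * Ψ z))]
    apply Finset.sum_congr rfl
    intro z _
    rw [orbSum_smul q a z, inv_smul_smul]
  rw [Finset.sum_congr rfl fun a _ => h1 a, Finset.sum_comm]
  apply Finset.sum_congr rfl
  intro z _
  rw [← Finset.sum_mul]
  have h2 : ∑ a : A, q (a⁻¹ • z) = ∑ a : A, q (a • z) :=
    Fintype.sum_equiv (Equiv.inv A) _ _ fun a => rfl
  rw [h2]
  have := hQ z
  field_simp

theorem grad {P : Matrix V V ℝ} {p lam : ℝ} (h : Chain P p lam) [Fintype A]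
    (hinv : ∀ (a : A) (x y : V), P (a • x) (a • y) = P x y) (K : Subgroup A)
    (hK : ∀ a b : A, a * b * a⁻¹ * b⁻¹ ∈ K) {m : ℝ} (hm : 0 < m)
    (horb : ∀ y : V, m ≤ (MulAction.orbit A y).ncard) {L : ℕ} (hL1 : 1 ≤ L)
    (hL : 16 * ((1 - lam) ^ L * (Fintype.card V : ℝ) ^ 2) ≤ m ^ 2) (o : V) (Φ : V → ℝ) {c : ℝ}
    (hc : 0 ≤ c) (h1 : ∀ (r : ℕ) (x y : V), (P ^ r) x y ≠ 0 → |Φ x - Φ y| ≤ c * r)
    (h2 : ∀ (r : ℕ) (a : A), ∀ k ∈ K, (P ^ r) o (k • a • o) ≠ 0 →
      ∀ x, |Φ (a • x) - Φ x| ≤ c * r) :
    ∀ (k r : ℕ) (y y' : V), (P ^ r) y y' ≠ 0 →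
      |(P ^ k *ᵥ Φ) y - (P ^ k *ᵥ Φ) y'| ≤ c * (r + 10 * L) := by
  have hX0 : 0 ≤ (1 - lam) ^ L := pow_nonneg (by linarith [h.lam1]) _
  have hLt : (1 - lam) ^ L * (Fintype.card V : ℝ) ^ 2 < m ^ 2 := by
    have : 0 < m ^ 2 := by positivity
    nlinarith
  intro k
  induction k using Nat.strong_induction_on with
  | _ k ih =>
    intro r y y' hyy
    have hne : Nonempty V := ⟨y⟩
    have hn : (0 : ℝ) < Fintype.card V := by exact_mod_cast Fintype.card_pos
    rcases lt_or_ge k L with hk | hk
    · have h3 : |(P ^ k *ᵥ Φ) y - (P ^ k *ᵥ Φ) y'| ≤ c * ((k + r + k : ℕ) : ℝ) := by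
        simp only [Matrix.mulVec, dotProduct]
        apply avg_diff _ _ _ _ _ (h.pow_nn k y) (h.pow_nn k y') (h.pow_row k y) (h.pow_row k y')
        intro i j hi hj
        apply h1
        exact h.reach_trans (h.reach_trans (h.reach_symm hi) hyy) hj
      refine h3.trans (mul_le_mul_of_nonneg_left ?_ hc)
      push_cast
      have h4 : (k : ℝ) ≤ L := by exact_mod_cast hk.le
      have h5 : (0 : ℝ) ≤ L := Nat.cast_nonneg _
      linarith
    · obtain ⟨k', rfl⟩ := Nat.exists_eq_add_of_le hk
      have ih' := ih k' (by omega)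
      set Ψ : V → ℝ := P ^ k' *ᵥ Φ with hΨ
      have hsplit : ∀ x, (P ^ (L + k') *ᵥ Φ) x = (P ^ L *ᵥ Ψ) x := by
        intro x
        rw [hΨ, Matrix.mulVec_mulVec, ← pow_add]
      rw [hsplit, hsplit]
      set q : V → ℝ := fun z => (P ^ L) y' z with hq
      have hqnn : ∀ z, 0 ≤ q z := fun z => h.pow_nn L y' z
      have hQ : ∀ z, ∑ b : A, q (b • z) ≠ 0 := by
        intro z
        obtain ⟨a, ha⟩ := h.reach_orbit hinv hm horb hLt y' z
        have h3 : 0 < q (a • z) := h.pos_of_ne L y' _ ha
        have h4 := Finset.single_le_sum (f := fun b : A => q (b • z)) (fun b _ => hqnn _)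
          (Finset.mem_univ a)
        exact (h3.trans_le h4).ne'
      have hQ0 : ∀ z, 0 < ∑ b : A, q (b • z) := fun z =>
        lt_of_le_of_ne (Finset.sum_nonneg fun b _ => hqnn _) (Ne.symm (hQ z))
      have hwnn : ∀ z (a : A), 0 ≤ q (a • z) / (∑ b : A, q (b • z)) := fun z a =>
        div_nonneg (hqnn _) (hQ0 z).le
      have hws : ∀ z, ∑ a : A, q (a • z) / (∑ b : A, q (b • z)) = 1 := by
        intro z
        rw [← Finset.sum_div, div_self (hQ z)]
      have hwne : ∀ z (a : A), q (a • z) / (∑ b : A, q (b • z)) ≠ 0 → q (a • z) ≠ 0 := by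
        intro z a ha h0
        rw [h0, zero_div] at ha
        exact ha rfl
      set F : V → ℝ := orbAvg (A := A) q Ψ with hF
      have hFinv : ∀ (a : A) (x : V), F (a • x) = F x := fun a x => orbAvg_smul q Ψ a x
      -- claim 2
      have hc2 : (P ^ L *ᵥ F) y' = (P ^ L *ᵥ Ψ) y' := by
        have := orbAvg_sum (A := A) q Ψ hQ
        simpa only [Matrix.mulVec, dotProduct] using this
      -- claim 1
      have hc1 : |(P ^ L *ᵥ Ψ) y - (P ^ L *ᵥ F) y| ≤ c * (r + 4 * L) := by
        simp only [Matrix.mulVec, dotProduct]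
        apply avg_diff_diag _ _ _ _ (h.pow_nn L y) (h.pow_row L y)
        intro z hz
        have h3 := avg_diff (fun _ : Unit => (1 : ℝ)) (fun a : A => q (a • z) /
          (∑ b : A, q (b • z))) (fun _ => Ψ z) (fun a => Ψ (a • z)) (c * (r + 4 * L))
          (by simp) (hwnn z) (by simp) (hws z) ?_
        · have hFz : F z = ∑ a : A, q (a • z) / (∑ b : A, q (b • z)) * Ψ (a • z) := rfl
          rw [hFz]
          simpa using h3
        · intro _ a _ ha
          have ha' := hwne z a ha
          -- displacement of the base point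
          obtain ⟨b, hb⟩ := h.reach_orbit hinv hm horb hLt o z
          have h4 : (P ^ (L + r + L)) z (a • z) ≠ 0 :=
            h.reach_trans (h.reach_trans (h.reach_symm hz) hyy) ha'
          have h5 : (P ^ (L + r + L)) (b • z) ((b * a * b⁻¹ * a⁻¹) • a • b • z) ≠ 0 := by
            have h6 : (b * a * b⁻¹ * a⁻¹) • a • b • z = b • a • z := by
              rw [← mul_smul, ← mul_smul, ← mul_smul]
              congr 1
              group
            rw [h6, pow_inv hinv]
            exact h4
          have h6 : (P ^ L) ((b * a * b⁻¹ * a⁻¹) • a • b • z)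
              ((b * a * b⁻¹ * a⁻¹) • a • o) ≠ 0 := by
            rw [pow_inv hinv, pow_inv hinv]
            exact h.reach_symm hb
          have h7 := h.reach_trans (h.reach_trans hb h5) h6
          have h8 := h2 _ a _ (hK b a) h7
          have h9 : |Ψ (a • z) - Ψ z| ≤ c * ((L + (L + r + L) + L : ℕ) : ℝ) := by
            rw [hΨ, mulVec_smul hinv]
            simp only [Matrix.mulVec, dotProduct]
            exact avg_diff_diag _ _ _ _ (h.pow_nn k' z) (h.pow_row k' z) fun w _ => h8 w
          rw [abs_sub_comm]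
          refine h9.trans (le_of_eq ?_)
          push_cast
          ring
      -- claim 3
      have hosc : ∀ z w, |F z - F w| ≤ c * (12 * L) := by
        intro z w
        rw [hF]
        unfold orbAvg
        apply avg_diff _ _ _ _ _ (hwnn z) (hwnn w) (hws z) (hws w)
        intro a b ha hb
        have ha' := hwne z a ha
        have hb' := hwne w b hb
        have h3 := ih' (L + L) (a • z) (b • w) (h.reach_trans (h.reach_symm ha') hb')
        refine h3.trans (le_of_eq ?_)
        push_cast
        ring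
      have hc0 : 0 ≤ c * (12 * L) := by positivity
      have hmn : m ≤ Fintype.card V := (horb y).trans (h.card_orbit_le (A := A) y)
      have hside : ∀ x, |(P ^ L *ᵥ fun z => F z - F y) x -
          (∑ z, (F z - F y)) / Fintype.card V| ≤ c * (12 * L) / 4 := by
        intro x
        have h3 := h.orbit_bound hinv (fun z => F z - F y) (fun a z => by
          simp only [hFinv]) x L
        set X := (P ^ L *ᵥ fun z => F z - F y) x - (∑ z, (F z - F y)) / Fintype.card V with hX
        have h4 : ∑ z, (F z - F y) ^ 2 ≤ Fintype.card V * (c * (12 * L)) ^ 2 := by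
          calc ∑ z, (F z - F y) ^ 2 ≤ ∑ _z : V, (c * (12 * L)) ^ 2 := by
                apply Finset.sum_le_sum
                intro z _
                rw [← sq_abs]
                exact pow_le_pow_left₀ (abs_nonneg _) (hosc z y) 2
            _ = _ := by rw [Finset.sum_const, Finset.card_univ, nsmul_eq_mul]
        have h5 : m * X ^ 2 ≤ (1 - lam) ^ L * (Fintype.card V * (c * (12 * L)) ^ 2) :=
          (mul_le_mul_of_nonneg_right (horb x) (sq_nonneg _)).trans
            (h3.trans (mul_le_mul_of_nonneg_left h4 hX0))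
        have h6 : X ^ 2 ≤ (c * (12 * L) / 4) ^ 2 := by
          have h7 : (16 * m * Fintype.card V) * X ^ 2 ≤
              (m * Fintype.card V) * (c * (12 * L)) ^ 2 := by
            calc (16 * m * Fintype.card V) * X ^ 2 = 16 * Fintype.card V * (m * X ^ 2) := by ring
              _ ≤ 16 * Fintype.card V *
                  ((1 - lam) ^ L * (Fintype.card V * (c * (12 * L)) ^ 2)) :=
                  mul_le_mul_of_nonneg_left h5 (by positivity)
              _ = (16 * ((1 - lam) ^ L * (Fintype.card V : ℝ) ^ 2)) * (c * (12 * L)) ^ 2 := by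
                  ring
              _ ≤ m ^ 2 * (c * (12 * L)) ^ 2 :=
                  mul_le_mul_of_nonneg_right hL (sq_nonneg _)
              _ ≤ (m * Fintype.card V) * (c * (12 * L)) ^ 2 := by
                  apply mul_le_mul_of_nonneg_right _ (sq_nonneg _)
                  rw [sq]
                  exact mul_le_mul_of_nonneg_left hmn hm.le
          have h8 : 0 < m * Fintype.card V := by positivity
          have h9 : (m * Fintype.card V) * (16 * X ^ 2) ≤
              (m * Fintype.card V) * (c * (12 * L)) ^ 2 := by linarith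
          have h10 := le_of_mul_le_mul_left h9 h8
          rw [div_pow]
          linarith
        exact abs_le_of_sq_le_sq h6 (by positivity)
      have hc3 : |(P ^ L *ᵥ F) y - (P ^ L *ᵥ F) y'| ≤ c * (6 * L) := by
        have h3 := abs_le.1 (hside y)
        have h4 := abs_le.1 (hside y')
        rw [h.pow_mulVec_sub_const] at h3 h4
        rw [abs_le]
        constructor <;> linarith
      rw [← hc2]
      calc |(P ^ L *ᵥ Ψ) y - (P ^ L *ᵥ F) y'|
          ≤ |(P ^ L *ᵥ Ψ) y - (P ^ L *ᵥ F) y| + |(P ^ L *ᵥ F) y - (P ^ L *ᵥ F) y'| :=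
            abs_sub_le _ _ _
        _ ≤ c * (r + 4 * L) + c * (6 * L) := add_le_add hc1 hc3
        _ = c * (r + 10 * L) := by ring

end Pool.Agent.VAC
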