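import Pool.Agent.VAC.Mix
import Pool.Agent.VAC.Defs

/-!
# The chain of a regular graph
-/

set_option autoImplicit false
set_option linter.unusedSectionVars false

namespace Pool.Agent.VAC

open Finset Matrix

variable {V : Type} [Fintype V] [DecidableEq V]

lemma HasGap.mono {P : Matrix V V ℝ} {lam lam' : ℝ} (h : HasGap P lam) (hl : lam' ≤ lam) :
    HasGap P lam' := by
  intro f hf
  exact (mul_le_mul_of_nonneg_right hl (Finset.sum_nonneg fun x _ => sq_nonneg _)).trans (h f hf)

/-- Contraction from the gap, for lazy chains. -/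
lemma contract {P : Matrix V V ℝ} {lam : ℝ} (nn : ∀ x y, 0 ≤ P x y) (row : ∀ x, ∑ y, P x y = 1)
    (sym : ∀ x y, P x y = P y x) (lazy : ∀ x, 1 / 2 ≤ P x x) (hgap : HasGap P lam) (f : V → ℝ)
    (hf : ∑ x, f x = 0) : ∑ x, (P *ᵥ f) x ^ 2 ≤ (1 - lam) * ∑ x, f x ^ 2 := by
  -- the non-lazy chain
  set Q : V → V → ℝ := fun x y => 2 * P x y - if x = y then 1 else 0 with hQ
  have hQnn : ∀ x y, 0 ≤ Q x y := by
    intro x y
    simp only [hQ]
    split_ifs with hxy
    · subst hxy
      linarith [lazy x]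
    · linarith [nn x y]
  have hQrow : ∀ x, ∑ y, Q x y = 1 := by
    intro x
    simp only [hQ]
    rw [Finset.sum_sub_distrib, ← Finset.mul_sum, row]
    simp
    norm_num
  have hQcol : ∀ y, ∑ x, Q x y = 1 := by
    intro y
    rw [← hQrow y]
    apply Finset.sum_congr rfl
    intro x _
    simp only [hQ]
    rw [sym x y]
    simp only [eq_comm]
  have hQf : ∀ x, ∑ y, Q x y * f y = 2 * (P *ᵥ f) x - f x := by
    intro x
    simp only [hQ, Matrix.mulVec, dotProduct]
    simp_rw [sub_mul]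
    rw [Finset.sum_sub_distrib, Finset.mul_sum]
    congr 1
    · apply Finset.sum_congr rfl
      intro y _
      ring
    · simp
  have hjensen : ∀ x, (∑ y, Q x y * f y) ^ 2 ≤ ∑ y, Q x y * f y ^ 2 := by
    intro x
    set m := ∑ y, Q x y * f y with hm
    have h1 : 0 ≤ ∑ y, Q x y * (f y - m) ^ 2 :=
      Finset.sum_nonneg fun y _ => mul_nonneg (hQnn x y) (sq_nonneg _)
    have h2 : ∑ y, Q x y * (f y - m) ^ 2 = ∑ y, Q x y * f y ^ 2 - m ^ 2 := by
      have h3 : ∀ y, Q x y * (f y - m) ^ 2 =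
          Q x y * f y ^ 2 - 2 * m * (Q x y * f y) + m ^ 2 * Q x y := by
        intro y; ring
      rw [Finset.sum_congr rfl fun y _ => h3 y, Finset.sum_add_distrib, Finset.sum_sub_distrib,
        ← Finset.mul_sum, ← Finset.mul_sum, hQrow, ← hm]
      ring
    linarith
  have h1 : ∑ x, (2 * (P *ᵥ f) x - f x) ^ 2 ≤ ∑ x, f x ^ 2 := by
    calc ∑ x, (2 * (P *ᵥ f) x - f x) ^ 2 = ∑ x, (∑ y, Q x y * f y) ^ 2 :=
          Finset.sum_congr rfl fun x _ => by rw [hQf]
      _ ≤ ∑ x, ∑ y, Q x y * f y ^ 2 := Finset.sum_le_sum fun x _ => hjensen x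
      _ = ∑ y, f y ^ 2 := by
          rw [Finset.sum_comm]
          apply Finset.sum_congr rfl
          intro y _
          rw [← Finset.sum_mul, hQcol, one_mul]
  have h2 : ∑ x, (2 * (P *ᵥ f) x - f x) ^ 2 =
      4 * ∑ x, (P *ᵥ f) x ^ 2 - 4 * ∑ x, f x * (P *ᵥ f) x + ∑ x, f x ^ 2 := by
    rw [Finset.mul_sum, Finset.mul_sum, ← Finset.sum_sub_distrib, ← Finset.sum_add_distrib]
    apply Finset.sum_congr rfl
    intro x _
    ring
  have h3 := hgap f hf
  have h4 : ∑ x, f x * (f x - (P *ᵥ f) x) = ∑ x, f x ^ 2 - ∑ x, f x * (P *ᵥ f) x := by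
    rw [← Finset.sum_sub_distrib]
    apply Finset.sum_congr rfl
    intro x _
    ring
  rw [h4] at h3
  linarith

variable (G : SimpleGraph V) [DecidableRel G.Adj]

lemma lazyP_apply (x y : V) : lazyP G x y = (if x = y then (1 / 2 : ℝ) else 0) +
    (if G.Adj x y then 1 / (2 * (G.degree x : ℝ)) else 0) := rfl

lemma chain_of_graph {d D : ℕ} (hd : 1 ≤ d) (hreg : ∀ x, G.degree x = d) (hdD : d ≤ D) {lam : ℝ}
    (hl0 : 0 < lam) (hl1 : lam ≤ 1) (hgap : HasGap (lazyP G) lam) :
    Chain (lazyP G) (1 / (2 * D)) lam := by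
  have hd0 : (0 : ℝ) < d := by exact_mod_cast hd
  have hD0 : (0 : ℝ) < D := lt_of_lt_of_le hd0 (by exact_mod_cast hdD)
  have hD1 : (1 : ℝ) ≤ D := by exact_mod_cast hd.trans hdD
  have nn : ∀ x y, 0 ≤ lazyP G x y := by
    intro x y
    rw [lazyP_apply]
    have h1 : (0 : ℝ) ≤ if x = y then (1 / 2 : ℝ) else 0 := by split_ifs <;> norm_num
    have h2 : (0 : ℝ) ≤ if G.Adj x y then 1 / (2 * (G.degree x : ℝ)) else 0 := by
      split_ifs <;> positivity
    linarith
  have row : ∀ x, ∑ y, lazyP G x y = 1 := by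
    intro x
    simp only [lazyP_apply]
    rw [Finset.sum_add_distrib]
    have h1 : ∑ y, (if x = y then (1 / 2 : ℝ) else 0) = 1 / 2 := by simp
    have h2 : ∑ y, (if G.Adj x y then 1 / (2 * (G.degree x : ℝ)) else 0) = 1 / 2 := by
      rw [← Finset.sum_filter, Finset.sum_const, nsmul_eq_mul, hreg x]
      have h3 : (Finset.univ.filter fun y => G.Adj x y).card = d := by
        rw [← hreg x, ← SimpleGraph.card_neighborFinset_eq_degree]
        congr 1
        ext y
        simp
      rw [h3]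
      field_simp
    rw [h1, h2]
    norm_num
  have sym : ∀ x y, lazyP G x y = lazyP G y x := by
    intro x y
    rw [lazyP_apply, lazyP_apply, hreg x, hreg y]
    simp only [G.adj_comm x y, eq_comm]
  have lazy : ∀ x, 1 / 2 ≤ lazyP G x x := by
    intro x
    rw [lazyP_apply]
    simp
  refine ⟨nn, row, sym, ?_, ?_, by positivity, ?_, hl0, hl1,
    contract nn row sym lazy hgap⟩
  · intro x y hxy
    rw [lazyP_apply, hreg x] at hxy ⊢
    have h1 : (1 : ℝ) / (2 * D) ≤ 1 / 2 := by
      apply one_div_le_one_div_of_le (by norm_num)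
      linarith
    have h2 : (1 : ℝ) / (2 * D) ≤ 1 / (2 * d) := by
      apply one_div_le_one_div_of_le (by positivity)
      have : (d : ℝ) ≤ D := by exact_mod_cast hdD
      linarith
    have h3 : (0 : ℝ) ≤ 1 / (2 * (d : ℝ)) := by positivity
    by_cases hxy1 : x = y
    · rw [if_pos hxy1]
      have h4 : (0 : ℝ) ≤ if G.Adj x y then 1 / (2 * (d : ℝ)) else 0 := by
        split_ifs
        · exact h3
        · exact le_rfl
      linarith
    · rw [if_neg hxy1] at hxy ⊢
      by_cases hxy2 : G.Adj x y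
      · rw [if_pos hxy2]
        linarith
      · rw [if_neg hxy2] at hxy
        norm_num at hxy
  · intro x
    have := lazy x
    intro h0
    rw [h0] at this
    norm_num at this
  · rw [div_le_one (by positivity)]
    linarith

instance : Finite (G ≃g G) := by
  apply Finite.of_injective (fun a : G ≃g G => a.toEquiv)
  intro a b h
  exact RelIso.toEquiv_injective h

lemma lazyP_inv {d : ℕ} (hreg : ∀ x, G.degree x = d) (A : Subgroup (G ≃g G)) (a : A) (x y : V) :
    lazyP G (a • x) (a • y) = lazyP G x y := by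
  have h1 : (a • x = a • y) ↔ x = y := smul_left_cancel_iff a
  have h2 : G.Adj (a • x) (a • y) ↔ G.Adj x y := (a : G ≃g G).map_adj_iff
  rw [lazyP_apply, lazyP_apply, hreg, hreg]
  simp only [h1, h2]

end Pool.Agent.VAC
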