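import Pool.Agent.VAC.Res

/-!
# From half mixed to mixed
-/

set_option autoImplicit false
set_option linter.unusedSectionVars false

namespace Pool.Agent.VAC

open Finset Matrix

variable {V : Type*} [Fintype V] [DecidableEq V]
variable {A : Type*} [Group A] [MulAction A V]

/-- total variation distance bounds differences of probabilities -/
lemma tv_set (μ : V → ℝ) (hμ : ∑ x, μ x = 1) [Nonempty V] (S : Finset V) {d : ℝ}
    (hd : ∑ y, |μ y - 1 / Fintype.card V| ≤ 2 * d) :
    (S.card : ℝ) / Fintype.card V - d ≤ ∑ y ∈ S, μ y := by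
  have hn : (0 : ℝ) < Fintype.card V := by exact_mod_cast Fintype.card_pos
  have h1 : ∑ y ∈ S, (1 / (Fintype.card V : ℝ) - μ y) +
      ∑ y ∈ Sᶜ, (1 / (Fintype.card V : ℝ) - μ y) = 0 := by
    rw [Finset.sum_add_sum_compl, Finset.sum_sub_distrib, hμ, Finset.sum_const, Finset.card_univ,
      nsmul_eq_mul]
    field_simp
    ring
  have h2 : ∑ y ∈ S, (1 / (Fintype.card V : ℝ) - μ y) ≤
      ∑ y ∈ S, |μ y - 1 / Fintype.card V| := by
    apply Finset.sum_le_sum
    intro y _
    have := neg_abs_le (μ y - 1 / Fintype.card V)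
    linarith
  have h3 : -∑ y ∈ Sᶜ, (1 / (Fintype.card V : ℝ) - μ y) ≤
      ∑ y ∈ Sᶜ, |μ y - 1 / Fintype.card V| := by
    rw [← Finset.sum_neg_distrib]
    apply Finset.sum_le_sum
    intro y _
    have := le_abs_self (μ y - 1 / Fintype.card V)
    linarith
  have h4 : ∑ y ∈ S, |μ y - 1 / (Fintype.card V : ℝ)| +
      ∑ y ∈ Sᶜ, |μ y - 1 / (Fintype.card V : ℝ)| = ∑ y, |μ y - 1 / Fintype.card V| :=
    Finset.sum_add_sum_compl _ _
  have h5 : ∑ y ∈ S, (1 / (Fintype.card V : ℝ) - μ y) =
      (S.card : ℝ) / Fintype.card V - ∑ y ∈ S, μ y := by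
    rw [Finset.sum_sub_distrib, Finset.sum_const, nsmul_eq_mul]
    ring
  linarith

namespace Chain

variable {P : Matrix V V ℝ} {p lam : ℝ} (h : Chain P p lam)

include h

/-- `L²` contraction for a small bounded part of the mass -/
lemma l2_part (f : V → ℝ) [Nonempty V] (s : ℕ) {b ε : ℝ} (hb : ∑ x, f x ^ 2 ≤ b / Fintype.card V)
    (hε : 0 ≤ ε) (hs : (1 - lam) ^ s * b ≤ ε ^ 2) :
    ∑ y, |(P ^ s *ᵥ f) y - (∑ x, f x) / Fintype.card V| ≤ ε := by
  have hn : (0 : ℝ) < Fintype.card V := by exact_mod_cast Fintype.card_pos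
  have h1 := h.gap_pow s (fun x => f x - (∑ y, f y) / Fintype.card V) (centred_sum f)
  have h2 := centred_sq f
  have h3 : 0 ≤ (1 - lam) ^ s := pow_nonneg (by linarith [h.lam1]) _
  have h4 : (∑ y, |(P ^ s *ᵥ f) y - (∑ x, f x) / Fintype.card V|) ^ 2 ≤ ε ^ 2 := by
    calc (∑ y, |(P ^ s *ᵥ f) y - (∑ x, f x) / Fintype.card V|) ^ 2
        ≤ Fintype.card V * ∑ y, |(P ^ s *ᵥ f) y - (∑ x, f x) / Fintype.card V| ^ 2 := by
          have := sq_sum_le_card_mul_sum_sq (s := (Finset.univ : Finset V))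
            (f := fun y => |(P ^ s *ᵥ f) y - (∑ x, f x) / Fintype.card V|)
          simpa [Finset.card_univ] using this
      _ = Fintype.card V * ∑ y, (P ^ s *ᵥ fun x => f x - (∑ y, f y) / Fintype.card V) y ^ 2 := by
          congr 1
          apply Finset.sum_congr rfl
          intro y _
          rw [sq_abs, h.pow_mulVec_sub_const]
      _ ≤ Fintype.card V * ((1 - lam) ^ s * (b / Fintype.card V)) := by
          apply mul_le_mul_of_nonneg_left _ hn.le
          exact h1.trans (mul_le_mul_of_nonneg_left (h2.trans hb) h3)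
      _ = (1 - lam) ^ s * b := by field_simp
      _ ≤ ε ^ 2 := hs
  exact le_of_sq_le_sq h4 hε

/-- crude bound for a part of the mass -/
lemma l1_part (f : V → ℝ) [Nonempty V] (hf : ∀ x, 0 ≤ f x) (s : ℕ) :
    ∑ y, |(P ^ s *ᵥ f) y - (∑ x, f x) / Fintype.card V| ≤ 2 * ∑ x, f x := by
  have hn : (0 : ℝ) < Fintype.card V := by exact_mod_cast Fintype.card_pos
  have h0 : 0 ≤ ∑ x, f x := Finset.sum_nonneg fun x _ => hf x
  calc ∑ y, |(P ^ s *ᵥ f) y - (∑ x, f x) / Fintype.card V|
      ≤ ∑ y, ((P ^ s *ᵥ f) y + (∑ x, f x) / Fintype.card V) := by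
        apply Finset.sum_le_sum
        intro y _
        have h1 : 0 ≤ (P ^ s *ᵥ f) y := by
          simp only [Matrix.mulVec, dotProduct]
          exact Finset.sum_nonneg fun x _ => mul_nonneg (h.pow_nn s y x) (hf x)
        have h2 : 0 ≤ (∑ x, f x) / Fintype.card V := by positivity
        rw [abs_le]
        constructor <;> linarith
    _ = 2 * ∑ x, f x := by
        rw [Finset.sum_add_distrib, h.pow_mulVec_sum, Finset.sum_const, Finset.card_univ,
          nsmul_eq_mul]
        field_simp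
        ring

theorem mix_from [Fintype A] (hinv : ∀ (a : A) (x y : V), P (a • x) (a • y) = P x y)
    (K : Subgroup A) [Fintype K] (hK : ∀ a b : A, a * b * a⁻¹ * b⁻¹ ∈ K) {m : ℝ} (hm : 0 < m)
    (horb : ∀ y : V, m ≤ (MulAction.orbit A y).ncard) {L : ℕ} (hL1 : 1 ≤ L)
    (hL : 16 * ((1 - lam) ^ L * (Fintype.card V : ℝ) ^ 2) ≤ m ^ 2) (o : V) (t : ℕ) {ε : ℝ}
    (hε0 : 0 < ε) (hd : ∑ y, |(P ^ t) o y - 1 / Fintype.card V| ≤ 2 * (1 - ε))
    {u : ℝ} (hu : 0 < u)
    (hW : 4 * (((t : ℝ) / L + 1) * (12 * Real.log (2 / p) * L) ^ 2) ≤ ε * u ^ 2) (s : ℕ)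
    (hs : (1 - lam) ^ s * (4 * Fintype.card K / ε * Real.exp (2 * u)) ≤ ε ^ 2) :
    ∑ y, |(P ^ (t + s)) o y - 1 / Fintype.card V| ≤ 2 * ε := by
  classical
  have hne : Nonempty V := ⟨o⟩
  have hn : (0 : ℝ) < Fintype.card V := by exact_mod_cast Fintype.card_pos
  have hκ : (0 : ℝ) < Fintype.card K := by exact_mod_cast Fintype.card_pos
  have hKn : K.Normal := ⟨fun k hk a => by
    have h1 := K.mul_mem (hK a k) hk
    have h2 : a * k * a⁻¹ * k⁻¹ * k = a * k * a⁻¹ := by group
    rwa [h2] at h1⟩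
  have hp2 : (0 : ℝ) < p / 2 := by
    have := h.p0
    positivity
  have hc : 0 ≤ Real.log (2 / p) := by
    apply Real.log_nonneg
    rw [one_le_div h.p0]
    linarith [h.p1]
  set c := Real.log (2 / p) with hcdef
  have hcneg : Real.log (p / 2) = -c := by
    rw [hcdef, ← Real.log_inv, inv_div]
  have hlog : ∀ (r : ℕ) (a b : ℝ), 0 < a → 0 < b → (p / 2) ^ r * a ≤ b →
      -(c * r) ≤ Real.log b - Real.log a := by
    intro r a b ha hb hab
    have h1 := Real.log_le_log (mul_pos (pow_pos hp2 r) ha) hab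
    rw [Real.log_mul (pow_pos hp2 r).ne' ha.ne', Real.log_pow, hcneg] at h1
    linarith
  set Φ : V → ℝ := fun x => -Real.log (green P K t o x) with hΦ
  have hgp : ∀ x, 0 < green P K t o x := fun x => h.green_pos K t o x
  have h1 : ∀ (r : ℕ) (x y : V), (P ^ r) x y ≠ 0 → |Φ x - Φ y| ≤ c * r := by
    intro r x y hxy
    have h2 := hlog r _ _ (hgp x) (hgp y) (h.green_step K t o hinv hxy)
    have h3 := hlog r _ _ (hgp y) (hgp x) (h.green_step K t o hinv (h.reach_symm hxy))
    simp only [hΦ]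
    rw [abs_le]
    constructor <;> linarith
  have h2 : ∀ (r : ℕ) (a : A), ∀ k ∈ K, (P ^ r) o (k • a • o) ≠ 0 →
      ∀ x, |Φ (a • x) - Φ x| ≤ c * r := by
    intro r a k hk hr x
    have h3 := hlog r _ _ (hgp x) (hgp (a • x)) (h.green_smul K t o hinv hKn hk hr x)
    have h4 := hlog r _ _ (hgp (a • x)) (hgp x) (h.green_smul' K t o hinv hKn hk hr x)
    simp only [hΦ]
    rw [abs_le]
    constructor <;> linarith
  have hg := grad h hinv K hK hm horb hL1 hL o Φ hc h1 h2
  have hv := variance h hL1 Φ hc hg t o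
  set W := ((t : ℝ) / L + 1) * (12 * c * L) ^ 2 with hWdef
  set μ : V → ℝ := fun x => (P ^ t) o x with hμdef
  have hμnn : ∀ x, 0 ≤ μ x := fun x => h.pow_nn t o x
  have hμs : ∑ x, μ x = 1 := h.pow_row t o
  set E := (P ^ t *ᵥ Φ) o with hE
  have hEs : E = ∑ x, μ x * Φ x := rfl
  have hvar : ∑ x, μ x * (Φ x - E) ^ 2 ≤ W := by
    have h3 : ∑ x, μ x * (Φ x - E) ^ 2 = (P ^ t *ᵥ fun y => Φ y ^ 2) o - E ^ 2 := by
      have h4 : (P ^ t *ᵥ fun y => Φ y ^ 2) o = ∑ x, μ x * Φ x ^ 2 := rfl
      have h5 : ∀ x, μ x * (Φ x - E) ^ 2 =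
          μ x * Φ x ^ 2 - 2 * E * (μ x * Φ x) + E ^ 2 * μ x := by
        intro x; ring
      rw [h4, Finset.sum_congr rfl fun x _ => h5 x, Finset.sum_add_distrib,
        Finset.sum_sub_distrib, ← Finset.mul_sum, ← Finset.mul_sum, hμs, ← hEs]
      ring
    rw [h3]
    exact hv
  have hterm : ∀ x, 0 ≤ μ x * (Φ x - E) ^ 2 := fun x => mul_nonneg (hμnn x) (sq_nonneg _)
  -- the threshold
  set b := 4 * (Fintype.card K : ℝ) / ε with hb
  have hb0 : 0 < b := by positivity
  set ℓ := -Real.log (b / Fintype.card V) with hℓ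
  -- the set of large values of the Green function
  set S : Finset V := Finset.univ.filter (fun x => green P K t o x ≤ b / Fintype.card V) with hS
  have hScard : 1 - ε / 2 ≤ (S.card : ℝ) / Fintype.card V := by
    have h3 := h.green_sum K t o
    have h4 : ∑ x ∈ Sᶜ, b / Fintype.card V ≤ ∑ x, green P K t o x := by
      calc ∑ x ∈ Sᶜ, b / Fintype.card V ≤ ∑ x ∈ Sᶜ, green P K t o x := by
            apply Finset.sum_le_sum
            intro x hx
            rw [Finset.mem_compl, hS, Finset.mem_filter] at hx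
            push Not at hx
            exact (hx (Finset.mem_univ x)).le
        _ ≤ _ := Finset.sum_le_sum_of_subset_of_nonneg (Finset.subset_univ _)
            fun x _ _ => h.green_nn K t o x
    rw [Finset.sum_const, nsmul_eq_mul, h3] at h4
    have h5 : (Sᶜ.card : ℝ) = Fintype.card V - S.card := by
      rw [Finset.card_compl, Nat.cast_sub (Finset.card_le_univ S)]
    rw [h5, hb] at h4
    rw [le_div_iff₀ hn]
    have h6 : ((Fintype.card V : ℝ) - S.card) * (4 * Fintype.card K / ε / Fintype.card V) *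
        (ε * Fintype.card V) ≤ 2 * Fintype.card K * (ε * Fintype.card V) :=
      mul_le_mul_of_nonneg_right h4 (by positivity)
    have h7 : ((Fintype.card V : ℝ) - S.card) * (4 * Fintype.card K / ε / Fintype.card V) *
        (ε * Fintype.card V) = (2 * Fintype.card K) * (2 * ((Fintype.card V : ℝ) - S.card)) := by
      field_simp
      ring
    rw [h7] at h6
    have h8 := le_of_mul_le_mul_left h6 (by positivity : (0 : ℝ) < 2 * Fintype.card K)
    linarith
  have hμS : ε / 2 ≤ ∑ y ∈ S, μ y := by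
    have h3 := tv_set μ hμs S hd
    linarith
  have hSΦ : ∀ x ∈ S, ℓ ≤ Φ x := by
    intro x hx
    rw [hS, Finset.mem_filter] at hx
    have h3 := Real.log_le_log (hgp x) hx.2
    simp only [hΦ, hℓ]
    linarith
  -- the mean is large
  have hmean : ℓ - u < E := by
    by_contra hcon
    push Not at hcon
    have h3 : ∑ x ∈ S, μ x * u ^ 2 ≤ ∑ x, μ x * (Φ x - E) ^ 2 := by
      calc ∑ x ∈ S, μ x * u ^ 2 ≤ ∑ x ∈ S, μ x * (Φ x - E) ^ 2 := by
            apply Finset.sum_le_sum
            intro x hx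
            apply mul_le_mul_of_nonneg_left _ (hμnn x)
            apply pow_le_pow_left₀ hu.le
            have := hSΦ x hx
            linarith
        _ ≤ _ := Finset.sum_le_sum_of_subset_of_nonneg (Finset.subset_univ _)
            fun x _ _ => hterm x
    rw [← Finset.sum_mul] at h3
    have h4 : ε / 2 * u ^ 2 ≤ (∑ y ∈ S, μ y) * u ^ 2 :=
      mul_le_mul_of_nonneg_right hμS (sq_nonneg _)
    have h5 : 0 < ε * u ^ 2 := by positivity
    linarith
  -- the set of small values
  set T : Finset V := Finset.univ.filter (fun x => Φ x < ℓ - 2 * u) with hT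
  have hμT : ∑ x ∈ T, μ x ≤ ε / 4 := by
    have h3 : ∑ x ∈ T, μ x * u ^ 2 ≤ ∑ x, μ x * (Φ x - E) ^ 2 := by
      calc ∑ x ∈ T, μ x * u ^ 2 ≤ ∑ x ∈ T, μ x * (Φ x - E) ^ 2 := by
            apply Finset.sum_le_sum
            intro x hx
            rw [hT, Finset.mem_filter] at hx
            apply mul_le_mul_of_nonneg_left _ (hμnn x)
            have h4 : (Φ x - E) ^ 2 = (E - Φ x) ^ 2 := by ring
            rw [h4]
            apply pow_le_pow_left₀ hu.le
            linarith [hx.2]
        _ ≤ _ := Finset.sum_le_sum_of_subset_of_nonneg (Finset.subset_univ _)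
            fun x _ _ => hterm x
    rw [← Finset.sum_mul] at h3
    have h4 : (∑ x ∈ T, μ x) * u ^ 2 ≤ (ε / 4) * u ^ 2 := by linarith
    exact le_of_mul_le_mul_right h4 (by positivity)
  -- split the mass
  set f : V → ℝ := fun x => if x ∈ T then 0 else μ x with hf
  set f' : V → ℝ := fun x => if x ∈ T then μ x else 0 with hf'
  have hff : ∀ x, μ x = f x + f' x := by
    intro x
    simp only [hf, hf']
    split_ifs <;> ring
  have hfnn : ∀ x, 0 ≤ f x := by
    intro x
    simp only [hf]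
    split_ifs
    · exact le_rfl
    · exact hμnn x
  have hfnn' : ∀ x, 0 ≤ f' x := by
    intro x
    simp only [hf']
    split_ifs
    · exact hμnn x
    · exact le_rfl
  have hsum' : ∑ x, f' x = ∑ x ∈ T, μ x := by
    simp only [hf']
    rw [Finset.sum_ite_mem, Finset.univ_inter]
  have hsum1 : ∑ x, f x + ∑ x, f' x = 1 := by
    rw [← hμs, ← Finset.sum_add_distrib]
    exact Finset.sum_congr rfl fun x _ => (hff x).symm
  have hfle : ∀ x, f x ≤ b / Fintype.card V * Real.exp (2 * u) := by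
    intro x
    simp only [hf]
    split_ifs with hx
    · positivity
    · rw [hT, Finset.mem_filter] at hx
      push Not at hx
      have h3 := hx (Finset.mem_univ x)
      have h4 : μ x ≤ green P K t o x := h.pow_le_green K t o x
      refine h4.trans ?_
      have h5 : Real.log (green P K t o x) ≤ Real.log (b / Fintype.card V) + 2 * u := by
        simp only [hΦ, hℓ] at h3
        linarith
      calc green P K t o x = Real.exp (Real.log (green P K t o x)) := (Real.exp_log (hgp x)).symm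
        _ ≤ Real.exp (Real.log (b / Fintype.card V) + 2 * u) := Real.exp_le_exp.2 h5
        _ = _ := by rw [Real.exp_add, Real.exp_log (by positivity)]
  have hfsq : ∑ x, f x ^ 2 ≤ (b * Real.exp (2 * u)) / Fintype.card V := by
    have h3 : ∑ x, f x ≤ 1 := by
      have : 0 ≤ ∑ x, f' x := Finset.sum_nonneg fun x _ => hfnn' x
      linarith
    have hM : 0 ≤ b / Fintype.card V * Real.exp (2 * u) := by positivity
    calc ∑ x, f x ^ 2 ≤ ∑ x, b / Fintype.card V * Real.exp (2 * u) * f x := by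
          apply Finset.sum_le_sum
          intro x _
          rw [sq]
          exact mul_le_mul_of_nonneg_right (hfle x) (hfnn x)
      _ = b / Fintype.card V * Real.exp (2 * u) * ∑ x, f x := by rw [Finset.mul_sum]
      _ ≤ b / Fintype.card V * Real.exp (2 * u) * 1 := mul_le_mul_of_nonneg_left h3 hM
      _ = _ := by ring
  have hpart := h.l2_part f s hfsq hε0.le hs
  have hpart' := h.l1_part f' hfnn' s
  have hdec : ∀ y, (P ^ (t + s)) o y - 1 / Fintype.card V =
      ((P ^ s *ᵥ f) y - (∑ x, f x) / Fintype.card V) +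
        ((P ^ s *ᵥ f') y - (∑ x, f' x) / Fintype.card V) := by
    intro y
    have h3 : (P ^ (t + s)) o y = (P ^ s *ᵥ f) y + (P ^ s *ᵥ f') y := by
      rw [pow_add, Matrix.mul_apply]
      simp only [Matrix.mulVec, dotProduct]
      rw [← Finset.sum_add_distrib]
      apply Finset.sum_congr rfl
      intro x _
      rw [h.pow_sym s x y]
      have h4 : (P ^ t) o x = f x + f' x := hff x
      rw [h4]
      ring
    have h4 : (1 : ℝ) / Fintype.card V = (∑ x, f x) / Fintype.card V +
        (∑ x, f' x) / Fintype.card V := by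
      rw [← add_div, hsum1]
    rw [h3, h4]
    ring
  calc ∑ y, |(P ^ (t + s)) o y - 1 / Fintype.card V|
      ≤ ∑ y, (|(P ^ s *ᵥ f) y - (∑ x, f x) / Fintype.card V| +
        |(P ^ s *ᵥ f') y - (∑ x, f' x) / Fintype.card V|) := by
        apply Finset.sum_le_sum
        intro y _
        rw [hdec]
        exact abs_add_le _ _
    _ = ∑ y, |(P ^ s *ᵥ f) y - (∑ x, f x) / Fintype.card V| +
        ∑ y, |(P ^ s *ᵥ f') y - (∑ x, f' x) / Fintype.card V| := Finset.sum_add_distrib
    _ ≤ ε + 2 * (ε / 4) := by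
        apply add_le_add hpart
        refine hpart'.trans ?_
        rw [hsum']
        linarith
    _ ≤ 2 * ε := by linarith

end Chain

end Pool.Agent.VAC
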