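import Pool.Agent.VAC.Chain

/-!
# Automorphisms of the chain
-/

set_option autoImplicit false
set_option linter.unusedSectionVars false

namespace Pool.Agent.VAC

open Finset Matrix

variable {V : Type*} [Fintype V] [DecidableEq V]
variable {A : Type*} [Group A] [MulAction A V]

/-- sums over `V` are invariant under the action -/
lemma sum_smul (a : A) (f : V → ℝ) : ∑ x, f (a • x) = ∑ x, f x :=
  Fintype.sum_equiv (MulAction.toPerm a) _ _ fun _ => rfl

section inv

variable {P : Matrix V V ℝ} (hinv : ∀ (a : A) (x y : V), P (a • x) (a • y) = P x y)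

include hinv

lemma pow_inv (t : ℕ) (a : A) (x y : V) : (P ^ t) (a • x) (a • y) = (P ^ t) x y := by
  induction t generalizing x y with
  | zero =>
    simp only [pow_zero, Matrix.one_apply]
    have h1 : a • x = a • y ↔ x = y := smul_left_cancel_iff a
    simp only [h1]
  | succ t ih =>
    rw [pow_succ, Matrix.mul_apply, Matrix.mul_apply,
      ← sum_smul a (fun z => (P ^ t) (a • x) z * P z (a • y))]
    apply Finset.sum_congr rfl
    intro z _
    rw [ih, hinv]

lemma mulVec_smul (t : ℕ) (a : A) (f : V → ℝ) (x : V) :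
    (P ^ t *ᵥ f) (a • x) = (P ^ t *ᵥ fun y => f (a • y)) x := by
  simp only [Matrix.mulVec, dotProduct]
  rw [← sum_smul a]
  apply Finset.sum_congr rfl
  intro z _
  rw [pow_inv hinv]

end inv

namespace Chain

variable {P : Matrix V V ℝ} {p lam : ℝ} (h : Chain P p lam)

include h

/-- Pointwise bound for invariant functions: the `L²` bound is spread over the orbit. -/
lemma orbit_bound (hinv : ∀ (a : A) (x y : V), P (a • x) (a • y) = P x y) (F : V → ℝ)
    (hF : ∀ (a : A) (x : V), F (a • x) = F x) (y : V) (t : ℕ) :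
    ((MulAction.orbit A y).ncard : ℝ) *
      ((P ^ t *ᵥ F) y - (∑ x, F x) / Fintype.card V) ^ 2 ≤ (1 - lam) ^ t * ∑ x, F x ^ 2 := by
  classical
  have : Nonempty V := ⟨y⟩
  set c := (∑ x, F x) / Fintype.card V with hc
  have h1 := h.gap_pow t (fun x => F x - c) (centred_sum F)
  have h2 := centred_sq F
  rw [← hc] at h2
  have h3 : 0 ≤ (1 - lam) ^ t := pow_nonneg (by linarith [h.lam1]) _
  have h4 : ∀ x ∈ (MulAction.orbit A y).toFinset,
      (P ^ t *ᵥ fun x => F x - c) x ^ 2 = ((P ^ t *ᵥ F) y - c) ^ 2 := by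
    intro x hx
    rw [Set.mem_toFinset] at hx
    obtain ⟨a, rfl⟩ := hx
    simp only
    rw [h.pow_mulVec_sub_const, mulVec_smul hinv]
    simp only [hF]
  calc ((MulAction.orbit A y).ncard : ℝ) * ((P ^ t *ᵥ F) y - c) ^ 2
      = ∑ x ∈ (MulAction.orbit A y).toFinset, (P ^ t *ᵥ fun x => F x - c) x ^ 2 := by
        rw [Finset.sum_congr rfl h4, Finset.sum_const, nsmul_eq_mul,
          Set.ncard_eq_toFinset_card']
    _ ≤ ∑ x, (P ^ t *ᵥ fun x => F x - c) x ^ 2 :=
        Finset.sum_le_sum_of_subset_of_nonneg (Finset.subset_univ _)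
          fun _ _ _ => sq_nonneg _
    _ ≤ (1 - lam) ^ t * ∑ x, (F x - c) ^ 2 := h1
    _ ≤ _ := mul_le_mul_of_nonneg_left h2 h3

/-- After `L` steps every orbit is reached. -/
lemma reach_orbit (hinv : ∀ (a : A) (x y : V), P (a • x) (a • y) = P x y) {m : ℝ} (hm : 0 < m)
    (horb : ∀ y : V, m ≤ (MulAction.orbit A y).ncard) {L : ℕ}
    (hL : (1 - lam) ^ L * (Fintype.card V : ℝ) ^ 2 < m ^ 2) (y z : V) :
    ∃ a : A, (P ^ L) y (a • z) ≠ 0 := by
  classical
  have hne : Nonempty V := ⟨y⟩
  have hn : (0 : ℝ) < Fintype.card V := by exact_mod_cast Fintype.card_pos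
  by_contra hcon
  push Not at hcon
  set O := MulAction.orbit A z with hO
  set F : V → ℝ := fun x => if x ∈ O then 1 else 0 with hFdef
  have hF : ∀ (a : A) (x : V), F (a • x) = F x := by
    intro a x
    have h1 : a • x ∈ O ↔ x ∈ O := by
      constructor
      · rintro ⟨b, hb⟩
        refine ⟨a⁻¹ * b, ?_⟩
        simp only at hb ⊢
        rw [mul_smul, hb, inv_smul_smul]
      · rintro ⟨b, rfl⟩
        exact ⟨a * b, by simp only [mul_smul]⟩
    simp only [hFdef, h1]
  have h1 := h.orbit_bound hinv F hF y L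
  have h2 : (P ^ L *ᵥ F) y = 0 := by
    simp only [Matrix.mulVec, dotProduct]
    apply Finset.sum_eq_zero
    intro x _
    by_cases hx : x ∈ O
    · obtain ⟨a, rfl⟩ := hx
      simp only [hcon a, zero_mul]
    · simp [hFdef, hx]
  have h3 : ∑ x, F x = (O.ncard : ℝ) := by
    simp only [hFdef]
    rw [Finset.sum_boole, Set.ncard_eq_toFinset_card']
    congr 1
    congr 1
    ext x
    simp
  have h4 : ∑ x, F x ^ 2 = (O.ncard : ℝ) := by
    rw [← h3]
    apply Finset.sum_congr rfl
    intro x _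
    simp only [hFdef]
    split_ifs <;> norm_num
  rw [h2, h3, h4] at h1
  have hz := horb z
  have hy := horb y
  rw [← hO] at hz
  have hz0 : (0 : ℝ) < O.ncard := hm.trans_le hz
  have h5 : m * ((O.ncard : ℝ) / Fintype.card V) ^ 2 ≤ (1 - lam) ^ L * O.ncard := by
    refine le_trans ?_ h1
    have h6 : (0 - (O.ncard : ℝ) / Fintype.card V) ^ 2 = ((O.ncard : ℝ) / Fintype.card V) ^ 2 := by
      ring
    rw [h6]
    exact mul_le_mul_of_nonneg_right hy (sq_nonneg _)
  have h6 : m * (O.ncard : ℝ) ≤ (1 - lam) ^ L * (Fintype.card V : ℝ) ^ 2 := by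
    rw [div_pow, mul_div_assoc', div_le_iff₀ (by positivity)] at h5
    have h7 : (O.ncard : ℝ) * (m * O.ncard) ≤
        O.ncard * ((1 - lam) ^ L * (Fintype.card V : ℝ) ^ 2) := by nlinarith
    exact le_of_mul_le_mul_left h7 hz0
  have h7 : m * m ≤ m * (O.ncard : ℝ) := mul_le_mul_of_nonneg_left hz hm.le
  nlinarith

lemma card_orbit_le (y : V) : ((MulAction.orbit A y).ncard : ℝ) ≤ Fintype.card V := by
  have h1 := Set.ncard_le_card (MulAction.orbit A y)
  rw [Nat.card_eq_fintype_card] at h1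
  exact_mod_cast h1

end Chain

end Pool.Agent.VAC
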