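import Pool.Agent.VAC.Graph

/-!
# The quantitative bound
-/

set_option autoImplicit false
set_option linter.unusedSectionVars false

namespace Pool.Agent.VAC

open Finset Matrix

variable {V : Type} [Fintype V] [DecidableEq V]
variable {A : Type*} [Group A] [MulAction A V]

lemma tvDist_le_iff (P : Matrix V V ℝ) (t : ℕ) (x : V) (d : ℝ) :
    tvDist P t x ≤ d ↔ ∑ y, |(P ^ t) x y - 1 / Fintype.card V| ≤ 2 * d := by
  unfold tvDist
  constructor <;> intro h <;> linarith

/-- The constant in the quantitative bound. -/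
noncomputable def constB (p lam ε : ℝ) : ℝ := Real.sqrt (34560 / ε) * (Real.log (2 / p) / lam)

/-- The constant in the quantitative bound. -/
noncomputable def constC (p lam ε : ℝ) : ℝ :=
  (2 * constB p lam ε + 6 + 6 * Real.log (1 / ε)) / lam

namespace Chain

variable {P : Matrix V V ℝ} {p lam : ℝ} (h : Chain P p lam)

include h

lemma one_sub_pow_le (t : ℕ) {a : ℝ} (ha : 0 < a) (ht : Real.log a ≤ lam * t) :
    (1 - lam) ^ t ≤ 1 / a := by
  have h1 : (1 - lam) ^ t ≤ Real.exp (-lam) ^ t :=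
    pow_le_pow_left₀ (by linarith [h.lam1]) (Real.one_sub_le_exp_neg lam) t
  refine h1.trans ?_
  rw [← Real.exp_nat_mul]
  calc Real.exp (t * -lam) ≤ Real.exp (-Real.log a) := Real.exp_le_exp.2 (by linarith)
    _ = 1 / a := by rw [Real.exp_neg, Real.exp_log ha, one_div]

lemma tv_half (x : V) (t : ℕ) (ht : Real.log (Fintype.card V) ≤ lam * t) :
    tvDist P t x ≤ 1 / 2 := by
  have hne : Nonempty V := ⟨x⟩
  have hn : (0 : ℝ) < Fintype.card V := by exact_mod_cast Fintype.card_pos
  rw [tvDist_le_iff]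
  have h1 := h.one_sub_pow_le t hn ht
  have h2 := h.l2_part (fun y => if y = x then (1 : ℝ) else 0) t (b := Fintype.card V) (ε := 1)
    (by
      rw [div_self hn.ne']
      simp) (by norm_num)
    (by
      calc (1 - lam) ^ t * Fintype.card V ≤ 1 / Fintype.card V * Fintype.card V :=
            mul_le_mul_of_nonneg_right h1 hn.le
        _ = 1 ^ 2 := by field_simp)
  have h3 : ∑ y, (if y = x then (1 : ℝ) else 0) = 1 := by simp
  rw [h3] at h2
  calc ∑ y, |(P ^ t) x y - 1 / (Fintype.card V : ℝ)|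
      = ∑ y, |(P ^ t *ᵥ fun y => if y = x then (1 : ℝ) else 0) y - 1 / Fintype.card V| := by
        apply Finset.sum_congr rfl
        intro y _
        have h4 : (P ^ t *ᵥ fun y => if y = x then (1 : ℝ) else 0) y = (P ^ t) x y := by
          simp only [Matrix.mulVec, dotProduct]
          rw [h.pow_sym t x y]
          simp
        rw [h4]
    _ ≤ 1 := h2
    _ = _ := by norm_num

lemma tmix_mem {ε : ℝ} (hε : ε ≤ 1 / 2) (x : V) : tvDist P (tmix P (1 - ε)) x ≤ 1 - ε := by
  have h1 : {t : ℕ | ∀ x : V, tvDist P t x ≤ 1 - ε}.Nonempty := by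
    refine ⟨⌈Real.log (Fintype.card V) / lam⌉₊, fun x => ?_⟩
    refine (h.tv_half x _ ?_).trans (by linarith)
    have h2 := Nat.le_ceil (Real.log (Fintype.card V) / lam)
    rw [div_le_iff₀ h.lam0] at h2
    linarith
  exact Nat.sInf_mem h1 x

lemma tmix_le {ε : ℝ} (hε : ε ≤ 1 / 2) (hn : 1 ≤ Fintype.card V) :
    (tmix P (1 - ε) : ℝ) ≤ Real.log (Fintype.card V) / lam + 1 := by
  have h1 : tmix P (1 - ε) ≤ ⌈Real.log (Fintype.card V) / lam⌉₊ := by
    apply Nat.sInf_le
    intro x
    refine (h.tv_half x _ ?_).trans (by linarith)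
    have h2 := Nat.le_ceil (Real.log (Fintype.card V) / lam)
    rw [div_le_iff₀ h.lam0] at h2
    linarith
  have h2 : (0 : ℝ) ≤ Real.log (Fintype.card V) / lam := by
    apply div_nonneg _ h.lam0.le
    exact Real.log_nonneg (by exact_mod_cast hn)
  have h3 := Nat.ceil_lt_add_one h2
  have h4 : (tmix P (1 - ε) : ℝ) ≤ (⌈Real.log (Fintype.card V) / lam⌉₊ : ℝ) := by exact_mod_cast h1
  linarith

lemma tmix_ge {ε : ℝ} (hε0 : 0 < ε) (hε : ε ≤ 1 / 2) (x : V) :
    Real.log (ε * Fintype.card V) ≤ Real.log (1 / p) * tmix P (1 - ε) := by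
  classical
  have hne : Nonempty V := ⟨x⟩
  have hn : (0 : ℝ) < Fintype.card V := by exact_mod_cast Fintype.card_pos
  set t := tmix P (1 - ε) with ht
  have h1 := h.tmix_mem hε x
  rw [← ht, tvDist_le_iff] at h1
  set S : Finset V := Finset.univ.filter (fun y => (P ^ t) x y = 0) with hS
  have h2 := tv_set (fun y => (P ^ t) x y) (h.pow_row t x) S h1
  have h3 : ∑ y ∈ S, (P ^ t) x y = 0 := by
    apply Finset.sum_eq_zero
    intro y hy
    rw [hS, Finset.mem_filter] at hy
    exact hy.2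
  rw [h3] at h2
  have h4 : ∑ _y ∈ Sᶜ, p ^ t ≤ ∑ y, (P ^ t) x y := by
    calc ∑ _y ∈ Sᶜ, p ^ t ≤ ∑ y ∈ Sᶜ, (P ^ t) x y := by
          apply Finset.sum_le_sum
          intro y hy
          rw [Finset.mem_compl, hS, Finset.mem_filter] at hy
          push Not at hy
          exact h.pow_low t x y (hy (Finset.mem_univ y))
      _ ≤ _ := Finset.sum_le_sum_of_subset_of_nonneg (Finset.subset_univ _)
          fun y _ _ => h.pow_nn t x y
  rw [Finset.sum_const, nsmul_eq_mul, h.pow_row] at h4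
  have h5 : (Sᶜ.card : ℝ) = Fintype.card V - S.card := by
    rw [Finset.card_compl, Nat.cast_sub (Finset.card_le_univ S)]
  have h6 : ε * Fintype.card V ≤ (Sᶜ.card : ℝ) := by
    rw [h5]
    have h7 : (S.card : ℝ) / Fintype.card V ≤ 1 - ε := by linarith
    rw [div_le_iff₀ hn] at h7
    linarith
  have hpt : 0 < p ^ t := pow_pos h.p0 t
  have h7 : ε * Fintype.card V * p ^ t ≤ 1 :=
    (mul_le_mul_of_nonneg_right h6 hpt.le).trans h4
  have h8 : 0 < ε * Fintype.card V := by positivity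
  have h9 := Real.log_le_log (mul_pos h8 hpt) h7
  rw [Real.log_mul h8.ne' hpt.ne', Real.log_pow, Real.log_one] at h9
  have h10 : Real.log (1 / p) = -Real.log p := by rw [one_div, Real.log_inv]
  rw [h10]
  linarith

theorem quant [Fintype A] (hinv : ∀ (a : A) (x y : V), P (a • x) (a • y) = P x y)
    (K : Subgroup A) [Fintype K] (hK : ∀ a b : A, a * b * a⁻¹ * b⁻¹ ∈ K) (hp : p ≤ 1 / 2) {M : ℝ}
    (hM1 : 1 ≤ M) (hMn : M ≤ Fintype.card V)
    (horb : ∀ y : V, (Fintype.card V : ℝ) ≤ M * (MulAction.orbit A y).ncard)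
    (hn2 : 2 ≤ Fintype.card V) {ε : ℝ} (hε0 : 0 < ε) (hε : ε ≤ 1 / 2) :
    (tmix P ε : ℝ) ≤ tmix P (1 - ε) + constC p lam ε *
      (Real.sqrt (Real.log (Fintype.card V) * (1 + Real.log M)) +
        Real.log (Fintype.card K)) := by
  have hlam := h.lam0
  have hlam1 := h.lam1
  have hn2' : (2 : ℝ) ≤ Fintype.card V := by exact_mod_cast hn2
  have hn : (0 : ℝ) < Fintype.card V := by linarith
  have hκ1 : 1 ≤ Fintype.card K := Fintype.card_pos
  have hκ : (0 : ℝ) < Fintype.card K := by exact_mod_cast hκ1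
  have hlogκ : 0 ≤ Real.log (Fintype.card K) := Real.log_nonneg (by exact_mod_cast hκ1)
  have hM0 : 0 < M := by linarith
  have hlogM : 0 ≤ Real.log M := Real.log_nonneg hM1
  have hlog2 : 1 / 2 < Real.log 2 := by have := Real.log_two_gt_d9; linarith
  have hlogn : 1 / 2 < Real.log (Fintype.card V) :=
    lt_of_lt_of_le hlog2 (Real.log_le_log (by norm_num) hn2')
  have hlogMn : Real.log M ≤ Real.log (Fintype.card V) := Real.log_le_log hM0 hMn
  have hil : 1 ≤ 1 / lam := by rw [le_div_iff₀ hlam]; linarith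
  set N := Real.log (Fintype.card V) with hN
  set ℓ := Real.log M with hℓ
  -- the time `L`
  have hlog16 : Real.log (16 * M ^ 2) = Real.log 16 + 2 * ℓ := by
    rw [Real.log_mul (by norm_num) (by positivity), Real.log_pow]
    push_cast
    ring
  have hlog16' : Real.log 16 ≤ 3 := by
    have h1 : Real.log 16 = 4 * Real.log 2 := by
      rw [show (16 : ℝ) = 2 ^ 4 by norm_num, Real.log_pow]
      push_cast
      ring
    have := Real.log_two_lt_d9
    rw [h1]
    linarith
  have hlog160 : 0 < Real.log 16 := Real.log_pos (by norm_num)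
  obtain ⟨L, hLdef⟩ : ∃ L : ℕ, L = ⌈Real.log (16 * M ^ 2) / lam⌉₊ := ⟨_, rfl⟩
  have hLpos : 0 < Real.log (16 * M ^ 2) / lam := by
    rw [hlog16]
    positivity
  have hL1 : 1 ≤ L := by
    rw [hLdef]
    exact Nat.ceil_pos.2 hLpos
  have hLge : Real.log (16 * M ^ 2) ≤ lam * L := by
    have h1 := Nat.le_ceil (Real.log (16 * M ^ 2) / lam)
    rw [← hLdef, div_le_iff₀ hlam] at h1
    linarith
  have hLle : (L : ℝ) ≤ 4 / lam * (1 + ℓ) := by
    have h1 := Nat.ceil_lt_add_one hLpos.le
    rw [← hLdef, hlog16] at h1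
    have h2 : (Real.log 16 + 2 * ℓ) / lam ≤ (3 + 2 * ℓ) * (1 / lam) := by
      rw [div_eq_mul_one_div]
      exact mul_le_mul_of_nonneg_right (by linarith) (by positivity)
    have h3 : 4 / lam * (1 + ℓ) = (3 + 2 * ℓ) * (1 / lam) + (1 + 2 * ℓ) * (1 / lam) := by ring
    have h4 : (1 : ℝ) * 1 ≤ (1 + 2 * ℓ) * (1 / lam) :=
      mul_le_mul (by linarith) hil (by norm_num) (by linarith)
    linarith
  set m : ℝ := Fintype.card V / M with hm
  have hm0 : 0 < m := by positivity
  have horb' : ∀ y : V, m ≤ (MulAction.orbit A y).ncard := by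
    intro y
    rw [hm, div_le_iff₀ hM0]
    have := horb y
    linarith
  have hL : 16 * ((1 - lam) ^ L * (Fintype.card V : ℝ) ^ 2) ≤ m ^ 2 := by
    have h1 := h.one_sub_pow_le L (a := 16 * M ^ 2) (by positivity) hLge
    calc 16 * ((1 - lam) ^ L * (Fintype.card V : ℝ) ^ 2)
        ≤ 16 * (1 / (16 * M ^ 2) * (Fintype.card V : ℝ) ^ 2) := by
          apply mul_le_mul_of_nonneg_left _ (by norm_num)
          exact mul_le_mul_of_nonneg_right h1 (by positivity)
      _ = m ^ 2 := by
          rw [hm]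
          field_simp
  -- the starting time
  obtain ⟨t, htdef⟩ : ∃ t : ℕ, t = tmix P (1 - ε) := ⟨_, rfl⟩
  have htle : (t : ℝ) ≤ N / lam + 1 := by
    rw [htdef]
    exact h.tmix_le hε (by omega)
  have hL0 : (0 : ℝ) < L := by exact_mod_cast hL1
  have ht0 : (0 : ℝ) ≤ t := Nat.cast_nonneg _
  have htL : (t : ℝ) + L ≤ 15 / lam * N := by
    have h1 : 4 / lam * (1 + ℓ) ≤ 4 / lam * (1 + N) :=
      mul_le_mul_of_nonneg_left (by linarith) (by positivity)
    have h2 : N / lam + 1 + 4 / lam * (1 + N) ≤ N / lam + 1 / lam + 4 / lam * (1 + N) := by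
      linarith
    have h3 : N / lam + 1 / lam + 4 / lam * (1 + N) = 5 / lam * (1 + N) := by ring
    have h4 : 5 / lam * (1 + N) ≤ 5 / lam * (3 * N) :=
      mul_le_mul_of_nonneg_left (by linarith) (by positivity)
    have h5 : 5 / lam * (3 * N) = 15 / lam * N := by ring
    linarith
  -- the deviation `u`
  set c := Real.log (2 / p) with hc
  have hc0 : 0 < c := by
    apply Real.log_pos
    rw [lt_div_iff₀ h.p0]
    linarith
  obtain ⟨W, hWdef⟩ : ∃ W : ℝ, W = ((t : ℝ) / L + 1) * (12 * c * L) ^ 2 := ⟨_, rfl⟩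
  have hW0 : 0 < W := by rw [hWdef]; positivity
  have hW' : W = 144 * c ^ 2 * ((t + L) * L) := by
    rw [hWdef]
    field_simp
    ring
  obtain ⟨u, hudef⟩ : ∃ u : ℝ, u = Real.sqrt (4 * W / ε) := ⟨_, rfl⟩
  have hu0 : 0 < u := by rw [hudef]; exact Real.sqrt_pos.2 (by positivity)
  have hu2 : ε * u ^ 2 = 4 * W := by
    rw [hudef, Real.sq_sqrt (by positivity)]
    field_simp
  set R := Real.sqrt (N * (1 + ℓ)) with hR
  have hR0 : 0 ≤ R := Real.sqrt_nonneg _
  have hR2 : R ^ 2 = N * (1 + ℓ) := Real.sq_sqrt (by positivity)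
  have hRhalf : 1 / 2 ≤ R := by
    rw [hR]
    apply Real.le_sqrt_of_sq_le
    nlinarith
  have hB0 : 0 ≤ constB p lam ε := by
    unfold constB
    rw [← hc]
    positivity
  have huR : u ≤ constB p lam ε * R := by
    apply le_of_sq_le_sq _ (by positivity)
    have h1 : (constB p lam ε * R) ^ 2 = 34560 / ε * (c / lam) ^ 2 * (N * (1 + ℓ)) := by
      rw [mul_pow, hR2]
      unfold constB
      rw [mul_pow, Real.sq_sqrt (by positivity), ← hc]
    have h2 : u ^ 2 = 4 * W / ε := by
      rw [← hu2]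
      field_simp
    rw [h1, h2, hW']
    have h3 : ((t : ℝ) + L) * L ≤ 15 / lam * N * (4 / lam * (1 + ℓ)) :=
      mul_le_mul htL hLle hL0.le (by positivity)
    have h4 : 4 * (144 * c ^ 2 * (((t : ℝ) + L) * L)) / ε ≤
        4 * (144 * c ^ 2 * (15 / lam * N * (4 / lam * (1 + ℓ)))) / ε := by
      apply div_le_div_of_nonneg_right _ hε0.le
      apply mul_le_mul_of_nonneg_left _ (by norm_num)
      exact mul_le_mul_of_nonneg_left h3 (by positivity)
    refine h4.trans (le_of_eq ?_)
    field_simp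
    ring
  -- the additional time `s`
  set κ : ℝ := (Fintype.card K : ℝ) with hκdef
  have hlogε : 0 ≤ Real.log (1 / ε) := by
    apply Real.log_nonneg
    rw [le_div_iff₀ hε0]
    linarith
  have hX : Real.log (4 * κ / ε) = Real.log 4 + Real.log κ + Real.log (1 / ε) := by
    rw [Real.log_div (by positivity) hε0.ne', Real.log_mul (by norm_num) hκ.ne', one_div,
      Real.log_inv]
    ring
  have hlog4 : Real.log 4 ≤ 2 := by
    have h1 : Real.log 4 = 2 * Real.log 2 := by
      rw [show (4 : ℝ) = 2 ^ 2 by norm_num, Real.log_pow]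
      push_cast
      ring
    have := Real.log_two_lt_d9
    rw [h1]
    linarith
  have hlog40 : 0 < Real.log 4 := Real.log_pos (by norm_num)
  obtain ⟨S, hSdef⟩ : ∃ S : ℝ, S = (2 * u + Real.log (4 * κ / ε) + 2 * Real.log (1 / ε)) / lam :=
    ⟨_, rfl⟩
  have hS0 : 0 ≤ S := by
    rw [hSdef, hX]
    positivity
  have hs : (1 - lam) ^ ⌈S⌉₊ * (4 * κ / ε * Real.exp (2 * u)) ≤ ε ^ 2 := by
    have h1 : Real.log (4 * κ / ε * Real.exp (2 * u) / ε ^ 2) ≤ lam * ⌈S⌉₊ := by
      have h2 := Nat.le_ceil S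
      have h3 : lam * S ≤ lam * ⌈S⌉₊ := mul_le_mul_of_nonneg_left h2 hlam.le
      refine le_trans (le_of_eq ?_) h3
      rw [Real.log_div (by positivity) (by positivity), Real.log_mul (by positivity)
        (Real.exp_pos _).ne', Real.log_exp, Real.log_pow, hSdef]
      rw [one_div, Real.log_inv]
      field_simp
      push_cast
      ring
    have h2 := h.one_sub_pow_le ⌈S⌉₊ (a := 4 * κ / ε * Real.exp (2 * u) / ε ^ 2)
      (by positivity) h1
    calc (1 - lam) ^ ⌈S⌉₊ * (4 * κ / ε * Real.exp (2 * u))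
        ≤ 1 / (4 * κ / ε * Real.exp (2 * u) / ε ^ 2) * (4 * κ / ε * Real.exp (2 * u)) :=
          mul_le_mul_of_nonneg_right h2 (by positivity)
      _ = ε ^ 2 := by
          have h3 : 4 * κ / ε * Real.exp (2 * u) ≠ 0 := by positivity
          field_simp
  have hmix : tmix P ε ≤ t + ⌈S⌉₊ := by
    apply Nat.sInf_le
    intro x
    rw [tvDist_le_iff]
    have hd := h.tmix_mem hε x
    rw [← htdef, tvDist_le_iff] at hd
    exact h.mix_from hinv K hK hm0 horb' hL1 hL x t hε0 hd hu0 (by rw [hu2, hWdef]) ⌈S⌉₊ hs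
  have hmix' : (tmix P ε : ℝ) ≤ t + (⌈S⌉₊ : ℝ) := by exact_mod_cast hmix
  have hS1 := Nat.ceil_lt_add_one hS0
  have hSle : S + 1 ≤ constC p lam ε * (R + Real.log κ) := by
    have h1 : S ≤ (2 * (constB p lam ε * R) + (2 + Real.log κ + Real.log (1 / ε)) +
        2 * Real.log (1 / ε)) * (1 / lam) := by
      rw [hSdef, hX, div_eq_mul_one_div]
      exact mul_le_mul_of_nonneg_right (by linarith) (by positivity)
    have h2 : (2 * (constB p lam ε * R) + (2 + Real.log κ + Real.log (1 / ε)) +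
        2 * Real.log (1 / ε)) * (1 / lam) + 1 * (1 / lam) ≤
        constC p lam ε * (R + Real.log κ) := by
      unfold constC
      have h3 : (2 * constB p lam ε + 6 + 6 * Real.log (1 / ε)) / lam * (R + Real.log κ) =
          ((2 * constB p lam ε + 6 + 6 * Real.log (1 / ε)) * (R + Real.log κ)) * (1 / lam) := by
        ring
      rw [h3, ← add_mul]
      apply mul_le_mul_of_nonneg_right _ (by positivity)
      have h4 : 0 ≤ (2 * constB p lam ε + 5 + 6 * Real.log (1 / ε)) * Real.log κ := by positivity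
      have h5 : Real.log (1 / ε) * (1 / 2) ≤ Real.log (1 / ε) * R :=
        mul_le_mul_of_nonneg_left hRhalf hlogε
      nlinarith
    linarith
  rw [← htdef]
  linarith

end Chain

end Pool.Agent.VAC
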