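import Pool.Agent.VAC.Grad

/-!
# Variance bound, and the discounted Green function
-/

set_option autoImplicit false
set_option linter.unusedSectionVars false

namespace Pool.Agent.VAC

open Finset Matrix

variable {V : Type*} [Fintype V] [DecidableEq V]
variable {A : Type*} [Group A] [MulAction A V]

theorem variance {P : Matrix V V ℝ} {p lam : ℝ} (h : Chain P p lam) {L : ℕ} (hL1 : 1 ≤ L)
    (Φ : V → ℝ) {c : ℝ} (hc : 0 ≤ c)
    (hg : ∀ (k r : ℕ) (y y' : V), (P ^ r) y y' ≠ 0 →
      |(P ^ k *ᵥ Φ) y - (P ^ k *ᵥ Φ) y'| ≤ c * (r + 10 * L)) :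
    ∀ (t : ℕ) (x : V), (P ^ t *ᵥ fun y => Φ y ^ 2) x - ((P ^ t *ᵥ Φ) x) ^ 2 ≤
      ((t : ℝ) / L + 1) * (12 * c * L) ^ 2 := by
  have hLpos : (0 : ℝ) < L := by exact_mod_cast hL1
  intro t
  induction t using Nat.strong_induction_on with
  | _ t ih =>
    intro x
    rcases lt_or_ge t L with ht | ht
    · have h1 : (P ^ t *ᵥ fun y => Φ y ^ 2) x - ((P ^ t *ᵥ Φ) x) ^ 2 ≤ (12 * c * L) ^ 2 := by
        simp only [Matrix.mulVec, dotProduct]
        apply var_le _ _ _ (h.pow_nn t x) (h.pow_row t x)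
        intro i j hi hj
        have h2 := hg 0 (t + t) i j (h.reach_trans (h.reach_symm hi) hj)
        simp only [pow_zero, Matrix.one_mulVec] at h2
        refine h2.trans ?_
        have h3 : (t : ℝ) ≤ L := by exact_mod_cast ht.le
        have h4 : c * (((t + t : ℕ) : ℝ) + 10 * L) ≤ c * (12 * L) := by
          apply mul_le_mul_of_nonneg_left _ hc
          push_cast
          linarith
        linarith
      have h2 : 1 * (12 * c * L) ^ 2 ≤ ((t : ℝ) / L + 1) * (12 * c * L) ^ 2 := by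
        apply mul_le_mul_of_nonneg_right _ (sq_nonneg _)
        have : 0 ≤ (t : ℝ) / L := by positivity
        linarith
      linarith
    · obtain ⟨k, rfl⟩ := Nat.exists_eq_add_of_le ht
      have ihk := ih k (by omega)
      have hsplit : ∀ f : V → ℝ, (P ^ (L + k) *ᵥ f) x = (P ^ L *ᵥ (P ^ k *ᵥ f)) x := by
        intro f
        rw [Matrix.mulVec_mulVec, ← pow_add]
      rw [hsplit, hsplit]
      set u : V → ℝ := P ^ k *ᵥ Φ with hu
      have h1 : (P ^ L *ᵥ (P ^ k *ᵥ fun y => Φ y ^ 2)) x ≤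
          (P ^ L *ᵥ fun z => u z ^ 2) x + ((k : ℝ) / L + 1) * (12 * c * L) ^ 2 := by
        calc (P ^ L *ᵥ (P ^ k *ᵥ fun y => Φ y ^ 2)) x
            = ∑ z, (P ^ L) x z * (P ^ k *ᵥ fun y => Φ y ^ 2) z := rfl
          _ ≤ ∑ z, (P ^ L) x z * (u z ^ 2 + ((k : ℝ) / L + 1) * (12 * c * L) ^ 2) := by
              apply Finset.sum_le_sum
              intro z _
              apply mul_le_mul_of_nonneg_left _ (h.pow_nn L x z)
              have := ihk z
              linarith
          _ = _ := by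
              simp_rw [mul_add]
              rw [Finset.sum_add_distrib, ← Finset.sum_mul, h.pow_row, one_mul]
              rfl
      have h2 : (P ^ L *ᵥ fun z => u z ^ 2) x - ((P ^ L *ᵥ u) x) ^ 2 ≤ (12 * c * L) ^ 2 := by
        simp only [Matrix.mulVec, dotProduct]
        apply var_le _ _ _ (h.pow_nn L x) (h.pow_row L x)
        intro i j hi hj
        have h3 := hg k (L + L) i j (h.reach_trans (h.reach_symm hi) hj)
        refine h3.trans (le_of_eq ?_)
        push_cast
        ring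
      have h3 : (((L + k : ℕ) : ℝ) / L + 1) = ((k : ℝ) / L + 1) + 1 := by
        push_cast
        field_simp
        ring
      rw [h3]
      linarith

section green

variable (P : Matrix V V ℝ) (K : Subgroup A) [Fintype K] (t : ℕ) (o : V)

/-- The summands of the discounted Green function. -/
noncomputable def greenS (j : ℕ) (x : V) : ℝ := ∑ k : K, (P ^ (t + j)) o ((k : A) • x)

/-- The discounted Green function, summed over the `K`-orbit. -/
noncomputable def green (x : V) : ℝ := ∑' j : ℕ, (1 / 2 : ℝ) ^ j * greenS P K t o j x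

end green

lemma tsum_shift (f g : ℕ → ℝ) (C : ℝ) (r : ℕ) (hf0 : ∀ j, 0 ≤ f j) (hf : Summable f)
    (hg : Summable g) (h : ∀ j, C * g j ≤ f (j + r)) : C * ∑' j, g j ≤ ∑' j, f j := by
  rw [← tsum_mul_left]
  have h1 : Summable fun j => f (j + r) := (summable_nat_add_iff r).2 hf
  have h2 : ∑' j, C * g j ≤ ∑' j, f (j + r) := (hg.mul_left C).tsum_le_tsum h h1
  have h3 := hf.sum_add_tsum_nat_add r
  have h4 : 0 ≤ ∑ i ∈ Finset.range r, f i := Finset.sum_nonneg fun i _ => hf0 i
  linarith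

namespace Chain

variable {P : Matrix V V ℝ} {p lam : ℝ} (h : Chain P p lam) (K : Subgroup A) [Fintype K]
  (t : ℕ) (o : V)

include h

lemma greenS_nn (j : ℕ) (x : V) : 0 ≤ greenS P K t o j x :=
  Finset.sum_nonneg fun _ _ => h.pow_nn _ _ _

lemma greenS_le (j : ℕ) (x : V) : greenS P K t o j x ≤ Fintype.card K := by
  unfold greenS
  calc ∑ k : K, (P ^ (t + j)) o ((k : A) • x) ≤ ∑ _k : K, (1 : ℝ) :=
        Finset.sum_le_sum fun k _ => h.pow_le_one _ _ _
    _ = Fintype.card K := by simp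

lemma green_summable (x : V) : Summable fun j : ℕ => (1 / 2 : ℝ) ^ j * greenS P K t o j x := by
  apply Summable.of_nonneg_of_le (fun j => mul_nonneg (by positivity) (h.greenS_nn K t o j x))
    (fun j => mul_le_mul_of_nonneg_left (h.greenS_le K t o j x) (by positivity))
  exact summable_geometric_two.mul_right _

lemma green_nn (x : V) : 0 ≤ green P K t o x :=
  tsum_nonneg fun j => mul_nonneg (by positivity) (h.greenS_nn K t o j x)

lemma term_le_green (j : ℕ) (x : V) :
    (1 / 2 : ℝ) ^ j * (P ^ (t + j)) o x ≤ green P K t o x := by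
  have h1 : (P ^ (t + j)) o x ≤ greenS P K t o j x := by
    have h2 := Finset.single_le_sum (f := fun k : K => (P ^ (t + j)) o ((k : A) • x))
      (fun k _ => h.pow_nn _ _ _) (Finset.mem_univ (1 : K))
    unfold greenS
    refine le_trans (le_of_eq ?_) h2
    simp
  calc (1 / 2 : ℝ) ^ j * (P ^ (t + j)) o x ≤ (1 / 2 : ℝ) ^ j * greenS P K t o j x :=
        mul_le_mul_of_nonneg_left h1 (by positivity)
    _ ≤ green P K t o x :=
        (h.green_summable K t o x).le_tsum j
          fun i _ => mul_nonneg (by positivity) (h.greenS_nn K t o i x)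

lemma pow_le_green (x : V) : (P ^ t) o x ≤ green P K t o x := by
  have := h.term_le_green K t o 0 x
  simpa using this

/-- pointwise convergence -/
lemma pt_bound (s : ℕ) (x y : V) :
    ((P ^ s) x y - 1 / Fintype.card V) ^ 2 ≤ (1 - lam) ^ s := by
  have : Nonempty V := ⟨x⟩
  have h1 := h.gap_pow s _ (centred_sum (fun z => if z = y then (1 : ℝ) else 0))
  have h2 := centred_sq (fun z => if z = y then (1 : ℝ) else 0)
  have h3 : ∑ z, (if z = y then (1 : ℝ) else 0) = 1 := by simp
  have h4 : ∑ z, (if z = y then (1 : ℝ) else 0) ^ 2 = 1 := by simp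
  rw [h3] at h1 h2
  rw [h4] at h2
  have h5 : ((P ^ s) x y - 1 / Fintype.card V) ^ 2 =
      (P ^ s *ᵥ fun z => (if z = y then (1 : ℝ) else 0) - 1 / Fintype.card V) x ^ 2 := by
    rw [h.pow_mulVec_sub_const]
    simp [Matrix.mulVec, dotProduct]
  rw [h5]
  have h6 := Finset.single_le_sum (f := fun x => (P ^ s *ᵥ fun z =>
    (if z = y then (1 : ℝ) else 0) - 1 / Fintype.card V) x ^ 2) (fun _ _ => sq_nonneg _)
    (Finset.mem_univ x)
  have h7 : 0 ≤ (1 - lam) ^ s := pow_nonneg (by linarith [h.lam1]) _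
  have h8 := mul_le_mul_of_nonneg_left h2 h7
  linarith

lemma green_pos (x : V) : 0 < green P K t o x := by
  have hne : Nonempty V := ⟨x⟩
  have hn : (0 : ℝ) < Fintype.card V := by exact_mod_cast Fintype.card_pos
  have h0 : (0 : ℝ) < (1 / Fintype.card V) ^ 2 := by positivity
  obtain ⟨s, hs⟩ := exists_pow_lt_of_lt_one h0 (show 1 - lam < 1 by linarith [h.lam0])
  have h1 : (1 - lam) ^ (t + s) ≤ (1 - lam) ^ s :=
    pow_le_pow_of_le_one (by linarith [h.lam1]) (by linarith [h.lam0]) (by omega)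
  have h2 := h.pt_bound (t + s) o x
  have h3 : (P ^ (t + s)) o x ≠ 0 := by
    intro h4
    rw [h4] at h2
    have h5 : (0 - 1 / (Fintype.card V : ℝ)) ^ 2 = (1 / Fintype.card V) ^ 2 := by ring
    rw [h5] at h2
    linarith
  have h4 := h.term_le_green K t o s x
  have h5 := h.pos_of_ne _ _ _ h3
  exact lt_of_lt_of_le (mul_pos (by positivity) h5) h4

lemma green_step (hinv : ∀ (a : A) (x y : V), P (a • x) (a • y) = P x y) {r : ℕ} {x y : V}
    (hxy : (P ^ r) x y ≠ 0) : (p / 2) ^ r * green P K t o x ≤ green P K t o y := by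
  apply tsum_shift _ _ _ r
    (fun j => mul_nonneg (by positivity) (h.greenS_nn K t o j y))
    (h.green_summable K t o y) (h.green_summable K t o x)
  intro j
  have h1 : p ^ r * greenS P K t o j x ≤ greenS P K t o (j + r) y := by
    unfold greenS
    rw [Finset.mul_sum]
    apply Finset.sum_le_sum
    intro k _
    have h2 : p ^ r ≤ (P ^ r) ((k : A) • x) ((k : A) • y) := by
      rw [pow_inv hinv]
      exact h.pow_low r x y hxy
    have h3 := h.mul_le_pow (t + j) r o ((k : A) • x) ((k : A) • y)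
    rw [Nat.add_assoc] at h3
    calc p ^ r * (P ^ (t + j)) o ((k : A) • x)
        ≤ (P ^ r) ((k : A) • x) ((k : A) • y) * (P ^ (t + j)) o ((k : A) • x) :=
          mul_le_mul_of_nonneg_right h2 (h.pow_nn _ _ _)
      _ ≤ _ := by rw [mul_comm]; exact h3
  calc (p / 2) ^ r * ((1 / 2 : ℝ) ^ j * greenS P K t o j x)
      = (1 / 2 : ℝ) ^ (j + r) * (p ^ r * greenS P K t o j x) := by
        rw [div_pow, pow_add, div_pow (1 : ℝ) 2 r, one_pow]
        ring
    _ ≤ (1 / 2 : ℝ) ^ (j + r) * greenS P K t o (j + r) y :=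
        mul_le_mul_of_nonneg_left h1 (by positivity)

lemma green_smul (hinv : ∀ (a : A) (x y : V), P (a • x) (a • y) = P x y) (hKn : K.Normal)
    {r : ℕ} {a k₀ : A} (hk₀ : k₀ ∈ K) (hr : (P ^ r) o (k₀ • a • o) ≠ 0) (x : V) :
    (p / 2) ^ r * green P K t o x ≤ green P K t o (a • x) := by
  apply tsum_shift _ _ _ r
    (fun j => mul_nonneg (by positivity) (h.greenS_nn K t o j (a • x)))
    (h.green_summable K t o (a • x)) (h.green_summable K t o x)
  intro j
  have h1 : p ^ r * greenS P K t o j x ≤ greenS P K t o (j + r) (a • x) := by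
    unfold greenS
    rw [Finset.mul_sum]
    -- reindex by `k ↦ k₀ a k a⁻¹`
    have hmem : ∀ k : K, k₀ * (a * (k : A) * a⁻¹) ∈ K := fun k =>
      K.mul_mem hk₀ (hKn.conj_mem _ k.2 a)
    let e : K → K := fun k => ⟨k₀ * (a * (k : A) * a⁻¹), hmem k⟩
    have he : Function.Bijective e := by
      rw [Fintype.bijective_iff_injective_and_card]
      refine ⟨?_, rfl⟩
      intro k k' hkk
      have h2 : k₀ * (a * (k : A) * a⁻¹) = k₀ * (a * (k' : A) * a⁻¹) :=
        congrArg (fun z : K => (z : A)) hkk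
      have h3 : (k : A) = k' := by
        have h4 := mul_left_cancel h2
        have h5 := mul_right_cancel h4
        exact mul_left_cancel h5
      exact Subtype.ext h3
    rw [← he.sum_comp (fun k : K => (P ^ (t + (j + r))) o ((k : A) • a • x))]
    apply Finset.sum_le_sum
    intro k _
    have h2 : p ^ r ≤ (P ^ r) o (k₀ • a • o) := h.pow_low r _ _ hr
    have h3 := h.mul_le_pow r (t + j) o (k₀ • a • o) (k₀ • a • (k : A) • x)
    have h4 : (P ^ (t + j)) (k₀ • a • o) (k₀ • a • (k : A) • x) = (P ^ (t + j)) o ((k : A) • x) := by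
      rw [pow_inv hinv, pow_inv hinv]
    have h5 : k₀ • a • (k : A) • x = ((e k : K) : A) • a • x := by
      change k₀ • a • (k : A) • x = (k₀ * (a * (k : A) * a⁻¹)) • a • x
      rw [← mul_smul, ← mul_smul, ← mul_smul]
      congr 1
      group
    rw [h4, h5] at h3
    have h6 : r + (t + j) = t + (j + r) := by omega
    rw [h6] at h3
    exact (mul_le_mul_of_nonneg_right h2 (h.pow_nn _ _ _)).trans h3
  calc (p / 2) ^ r * ((1 / 2 : ℝ) ^ j * greenS P K t o j x)
      = (1 / 2 : ℝ) ^ (j + r) * (p ^ r * greenS P K t o j x) := by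
        rw [div_pow, pow_add, div_pow (1 : ℝ) 2 r, one_pow]
        ring
    _ ≤ (1 / 2 : ℝ) ^ (j + r) * greenS P K t o (j + r) (a • x) :=
        mul_le_mul_of_nonneg_left h1 (by positivity)

lemma green_smul' (hinv : ∀ (a : A) (x y : V), P (a • x) (a • y) = P x y) (hKn : K.Normal)
    {r : ℕ} {a k₀ : A} (hk₀ : k₀ ∈ K) (hr : (P ^ r) o (k₀ • a • o) ≠ 0) (x : V) :
    (p / 2) ^ r * green P K t o (a • x) ≤ green P K t o x := by
  have hk1 : a⁻¹ * k₀⁻¹ * a⁻¹⁻¹ ∈ K := hKn.conj_mem _ (K.inv_mem hk₀) a⁻¹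
  have hr1 : (P ^ r) o ((a⁻¹ * k₀⁻¹ * a⁻¹⁻¹) • a⁻¹ • o) ≠ 0 := by
    have h1 : (P ^ r) (k₀ • a • o) (k₀ • a • (a⁻¹ * k₀⁻¹ * a⁻¹⁻¹) • a⁻¹ • o) ≠ 0 := by
      have h2 : k₀ • a • (a⁻¹ * k₀⁻¹ * a⁻¹⁻¹) • a⁻¹ • o = o := by
        rw [← mul_smul, ← mul_smul, ← mul_smul]
        have h3 : k₀ * a * (a⁻¹ * k₀⁻¹ * a⁻¹⁻¹) * a⁻¹ = 1 := by group
        rw [h3, one_smul]
      rw [h2]
      exact h.reach_symm hr
    rwa [pow_inv hinv, pow_inv hinv] at h1
  have h3 := h.green_smul K t o hinv hKn hk1 hr1 (a • x)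
  rwa [inv_smul_smul] at h3

lemma green_sum : ∑ x, green P K t o x = 2 * Fintype.card K := by
  unfold green
  rw [← Summable.tsum_finsetSum fun x _ => h.green_summable K t o x]
  have h1 : ∀ j, ∑ x, (1 / 2 : ℝ) ^ j * greenS P K t o j x = (1 / 2 : ℝ) ^ j * Fintype.card K := by
    intro j
    rw [← Finset.mul_sum]
    congr 1
    unfold greenS
    rw [Finset.sum_comm]
    have h2 : ∀ k : K, ∑ x, (P ^ (t + j)) o ((k : A) • x) = 1 := by
      intro k
      rw [sum_smul (k : A) (fun x => (P ^ (t + j)) o x), h.pow_row]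
    rw [Finset.sum_congr rfl fun k _ => h2 k]
    simp
  rw [tsum_congr h1, tsum_mul_right, tsum_geometric_two]

end Chain

end Pool.Agent.VAC
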